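import Pool.Agent.Q169.MP.Geom

/-!
Definitions for the conformal upper box dimension of Mandelbrot percolation.
-/

namespace Q169.MP

open Set Filter Topology
open scoped ENNReal NNReal

/-- A homeomorphism `f : X → Y` of metric spaces is quasisymmetric if for some homeomorphism `η`
of `[0, ∞)`, `d(x, a) ≤ t * d(x, b)` implies `d(f x, f a) ≤ η t * d(f x, f b)`. -/
def IsQuasisymmetric {X Y : Type} [MetricSpace X] [MetricSpace Y] (f : X ≃ₜ Y) : Prop :=
  ∃ η : ℝ≥0 ≃ₜ ℝ≥0, ∀ x a b : X, ∀ t : ℝ≥0, 0 < t →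
    dist x a ≤ t * dist x b → dist (f x) (f a) ≤ η t * dist (f x) (f b)

/-- The upper box-counting dimension of a metric space: the upper limit, as `r → 0+`, of
`log N(r) / (-log r)`, where `N(r)` is the least number of closed balls of radius `r`
covering the space. -/
noncomputable def upperBoxDim (X : Type) [MetricSpace X] : EReal :=
  limsup (fun r : ℝ≥0 =>
    ENNReal.log ((Metric.coveringNumber r (univ : Set X) : ℕ∞) : ℝ≥0∞) /
      ((-Real.log r : ℝ) : EReal)) (𝓝[>] 0)

/-- The conformal upper box dimension: the infimum of the upper box-counting dimensions of all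
metric spaces quasisymmetrically equivalent to `X`. -/
noncomputable def conformalUpperBoxDim (X : Type) [MetricSpace X] : EReal :=
  ⨅ (Y : Type) (_ : MetricSpace Y) (_ : ∃ f : X ≃ₜ Y, IsQuasisymmetric f), upperBoxDim Y

/-- A letter: the position of one of the `n ^ d` subcubes of a cube. -/
abbrev Letter (d n : ℕ) : Type := Fin d → Fin n

/-- The digits of a letter. -/
def digit {d n : ℕ} (a : Letter d n) (i : Fin d) : ℕ := (a i : ℕ)

/-- The closed `n`-adic subcube of `[0,1]^d` coded by a word `a₁ ... a_k`, of side `n ^ (-k)` and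
lower corner `∑ j, a_j * n ^ (-j)`. -/
def cubeE (d n : ℕ) (w : List (Letter d n)) : Set (EuclideanSpace ℝ (Fin d)) :=
  {x | ∀ i, corner n digit w i ≤ x i ∧ x i ≤ corner n digit w i + (n : ℝ)⁻¹ ^ w.length}

/-- `ω (u, a)` says whether the subcube `a` of the cube coded by `u` is kept (when the latter
is). A cube is kept at its level if it and all its ancestors are kept. -/
def Kept {A : Type*} (ω : List A × A → Bool) (w : List A) : Prop :=
  ∀ u a v, w = u ++ a :: v → ω (u, a) = true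

/-- `F_k`: the union of the cubes kept at level `k`. -/
def percLevel (d n : ℕ) (ω : List (Letter d n) × Letter d n → Bool) (k : ℕ) :
    Set (EuclideanSpace ℝ (Fin d)) :=
  ⋃ (w : List (Letter d n)) (_ : w.length = k) (_ : Kept ω w), cubeE d n w

/-- The Mandelbrot percolation set `F = ⋂ k, F_k`. -/
def perc (d n : ℕ) (ω : List (Letter d n) × Letter d n → Bool) :
    Set (EuclideanSpace ℝ (Fin d)) :=
  ⋂ k, percLevel d n ω k

section BoxDim

variable {X : Type} [MetricSpace X]

lemma upperBoxDim_le {s : ℝ} {C : ℝ} (hC : 0 < C) {r₀ : ℝ} (hr₀ : 0 < r₀)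
    (h : ∀ r : ℝ≥0, 0 < r → (r : ℝ) < r₀ →
      ((Metric.coveringNumber r (univ : Set X) : ℕ∞) : ℝ≥0∞) ≤
        ENNReal.ofReal (C * (r : ℝ) ^ (-s))) :
    upperBoxDim X ≤ s := by
  have hlim : Tendsto (fun r : ℝ≥0 => ((Real.log C / (-Real.log r) + s : ℝ) : EReal))
      (𝓝[>] 0) (𝓝 (s : EReal)) := by
    have h1 : Tendsto (fun r : ℝ≥0 => (r : ℝ)) (𝓝[>] 0) (𝓝[>] 0) := by
      refine tendsto_nhdsWithin_iff.2 ⟨?_, ?_⟩
      · have : Tendsto (fun r : ℝ≥0 => (r : ℝ)) (𝓝 0) (𝓝 ((0 : ℝ≥0) : ℝ)) :=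
          NNReal.continuous_coe.tendsto 0
        exact this.mono_left nhdsWithin_le_nhds
      · filter_upwards [self_mem_nhdsWithin] with r hr
        exact_mod_cast hr
    have h2 : Tendsto (fun r : ℝ≥0 => -Real.log (r : ℝ)) (𝓝[>] 0) atTop :=
      tendsto_neg_atBot_atTop.comp (Real.tendsto_log_nhdsGT_zero.comp h1)
    have h3 : Tendsto (fun r : ℝ≥0 => Real.log C / (-Real.log r) + s) (𝓝[>] 0) (𝓝 (0 + s)) :=
      (h2.const_div_atTop (Real.log C)).add tendsto_const_nhds
    rw [zero_add] at h3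
    exact (continuous_coe_real_ereal.tendsto s).comp h3
  have hne : (𝓝[>] (0 : ℝ≥0)).NeBot := inferInstance
  rw [← hlim.limsup_eq]
  unfold upperBoxDim
  refine limsup_le_limsup ?_ (by isBoundedDefault) (by isBoundedDefault)
  have hsmall : ∀ᶠ r : ℝ≥0 in 𝓝[>] 0, 0 < r ∧ (r : ℝ) < r₀ ∧ (r : ℝ) < 1 := by
    have h1 : ∀ᶠ r : ℝ≥0 in 𝓝 0, (r : ℝ) < r₀ ∧ (r : ℝ) < 1 := by
      have : Tendsto (fun r : ℝ≥0 => (r : ℝ)) (𝓝 0) (𝓝 ((0 : ℝ≥0) : ℝ)) :=
          NNReal.continuous_coe.tendsto 0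
      exact (this.eventually (gt_mem_nhds (by simpa using hr₀))).and
        (this.eventually (gt_mem_nhds (by simp)))
    filter_upwards [self_mem_nhdsWithin, nhdsWithin_le_nhds h1] with r hr hr1
    exact ⟨hr, hr1⟩
  filter_upwards [hsmall] with r hr
  obtain ⟨h0, h1, h2⟩ := hr
  have hr0 : (0 : ℝ) < r := by exact_mod_cast h0
  have hlog : 0 < -Real.log r := by
    have := Real.log_neg hr0 h2
    linarith
  have hh := h r h0 h1
  have hpos : 0 < C * (r : ℝ) ^ (-s) := by positivity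
  have h3 : ENNReal.log ((Metric.coveringNumber r (univ : Set X) : ℕ∞) : ℝ≥0∞) ≤
      ((Real.log C + s * (-Real.log r) : ℝ) : EReal) := by
    refine (ENNReal.log_monotone hh).trans ?_
    rw [ENNReal.log_ofReal_of_pos hpos, Real.log_mul hC.ne' (by positivity),
      Real.log_rpow hr0]
    apply le_of_eq
    congr 1
    ring
  calc _ ≤ ((Real.log C + s * (-Real.log r) : ℝ) : EReal) / ((-Real.log r : ℝ) : EReal) :=
        EReal.div_le_div_right_of_nonneg (by exact_mod_cast hlog.le) h3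
    _ = (((Real.log C + s * (-Real.log r)) / (-Real.log r) : ℝ) : EReal) := by
        rw [EReal.coe_div]
    _ = _ := by
        congr 1
        rw [add_div, mul_div_assoc, div_self hlog.ne', mul_one]

lemma le_of_upperBoxDim_lt {s : ℝ} (h : upperBoxDim X < s) :
    ∃ r₀ : ℝ, 0 < r₀ ∧ ∀ r : ℝ≥0, 0 < r → (r : ℝ) < r₀ →
      ((Metric.coveringNumber r (univ : Set X) : ℕ∞) : ℝ≥0∞) ≤
        ENNReal.ofReal ((r : ℝ) ^ (-s)) := by
  unfold upperBoxDim at h
  have h1 := eventually_lt_of_limsup_lt h (by isBoundedDefault)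
  rw [eventually_nhdsWithin_iff] at h1
  obtain ⟨ε, hε, h2⟩ := Metric.eventually_nhds_iff.1 h1
  refine ⟨min ε 1, lt_min hε one_pos, fun r hr0 hr1 => ?_⟩
  have hr : (0 : ℝ) < r := by exact_mod_cast hr0
  have h3 := h2 (y := r) (by
    rw [NNReal.dist_eq, NNReal.coe_zero, sub_zero, abs_of_pos hr]
    exact lt_of_lt_of_le hr1 (min_le_left _ _)) hr0
  have hlog : 0 < -Real.log r := by
    have := Real.log_neg hr (lt_of_lt_of_le hr1 (min_le_right _ _))
    linarith
  rw [EReal.div_lt_iff (by exact_mod_cast hlog) (by exact EReal.coe_ne_top _)] at h3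
  have hpos : 0 < (r : ℝ) ^ (-s) := by positivity
  rw [← ENNReal.log_le_log_iff, ENNReal.log_ofReal_of_pos hpos, Real.log_rpow hr]
  refine h3.le.trans ?_
  rw [← EReal.coe_mul]
  apply le_of_eq
  congr 1
  ring

end BoxDim

end Q169.MP
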