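import Mathlib

/-!
Words, cubes and isolated cubes: deterministic geometry used for the conformal upper box
dimension of Mandelbrot percolation.
-/

namespace Q169.MP

open Set

section Corner

variable {B : Type*} {d : ℕ} (m : ℕ) (dig : B → Fin d → ℕ)

/-- The lower corner of the `m`-adic cube coded by a word: a letter `b` has digits
`dig b i`, and the corner of `b₁ ... b_k` is `∑ j, dig b_j * m ^ (-j)`. -/
noncomputable def corner : List B → Fin d → ℝ
  | [] => fun _ => 0
  | b :: v => fun i => ((dig b i : ℝ) + corner v i) / m

/-- The closed `m`-adic cube coded by a word, of side `m ^ (-|v|)`. -/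
def cube (v : List B) : Set (Fin d → ℝ) :=
  {x | ∀ i, corner m dig v i ≤ x i ∧ x i ≤ corner m dig v i + (m : ℝ)⁻¹ ^ v.length}

/-- The cube with its outer layer of next-level subcubes removed. -/
def inner (v : List B) : Set (Fin d → ℝ) :=
  {x | ∀ i, corner m dig v i + (m : ℝ)⁻¹ ^ (v.length + 1) ≤ x i ∧
    x i ≤ corner m dig v i + (m : ℝ)⁻¹ ^ v.length - (m : ℝ)⁻¹ ^ (v.length + 1)}

/-- An interior letter: the corresponding subcube does not touch the boundary. -/
def InteriorLetter (b : B) : Prop := ∀ i, 1 ≤ dig b i ∧ dig b i + 2 ≤ m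

variable {m} {dig}

lemma corner_append (u w : List B) (i : Fin d) :
    corner m dig (u ++ w) i = corner m dig u i + (m : ℝ)⁻¹ ^ u.length * corner m dig w i := by
  induction u with
  | nil => simp [corner]
  | cons b u ih =>
    simp only [List.cons_append, corner, ih, List.length_cons, pow_succ]
    rw [div_eq_mul_inv, div_eq_mul_inv]
    ring

variable (hm : 0 < m) (hdig : ∀ b i, dig b i < m)

include hm in
lemma corner_nonneg (v : List B) (i : Fin d) : 0 ≤ corner m dig v i := by
  induction v with
  | nil => simp [corner]
  | cons b v ih =>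
    simp only [corner]
    positivity

include hm hdig in
lemma corner_add_le (v : List B) (i : Fin d) :
    corner m dig v i + (m : ℝ)⁻¹ ^ v.length ≤ 1 := by
  induction v with
  | nil => simp [corner]
  | cons b v ih =>
    simp only [corner, List.length_cons, pow_succ]
    have h1 : (dig b i : ℝ) + 1 ≤ m := by exact_mod_cast hdig b i
    have hm' : (0 : ℝ) < m := by exact_mod_cast hm
    have : ((dig b i : ℝ) + corner m dig v i) / m + (m : ℝ)⁻¹ ^ v.length * (m : ℝ)⁻¹
        = ((dig b i : ℝ) + (corner m dig v i + (m : ℝ)⁻¹ ^ v.length)) / m := by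
      rw [div_eq_mul_inv, div_eq_mul_inv]; ring
    rw [this, div_le_one hm']
    linarith

include hm hdig in
lemma cube_append_subset (u w : List B) : cube m dig (u ++ w) ⊆ cube m dig u := by
  intro x hx i
  have h := hx i
  rw [corner_append, List.length_append, pow_add] at h
  have h0 := corner_nonneg (m := m) (dig := dig) hm w i
  have h1 := corner_add_le (m := m) (dig := dig) hm hdig w i
  have hp : (0 : ℝ) ≤ (m : ℝ)⁻¹ ^ u.length := by positivity
  constructor
  · nlinarith [h.1]
  · nlinarith [h.2]

include hm hdig in
lemma cube_subset_of_prefix {u v : List B} (h : u <+: v) : cube m dig v ⊆ cube m dig u := by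
  obtain ⟨w, rfl⟩ := h
  exact cube_append_subset hm hdig u w

include hm in
lemma inner_subset_cube (v : List B) : inner m dig v ⊆ cube m dig v := by
  intro x hx i
  have h := hx i
  have hp : (0 : ℝ) ≤ (m : ℝ)⁻¹ ^ (v.length + 1) := by positivity
  exact ⟨by linarith [h.1], by linarith [h.2]⟩

include hm in
/-- A subcube with an interior letter lies in the inner cube. -/
lemma cube_subset_inner {v : List B} {b : B} (hb : InteriorLetter m dig b) :
    cube m dig (v ++ [b]) ⊆ inner m dig v := by
  intro x hx i
  have h := hx i
  rw [corner_append, List.length_append] at h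
  have hm' : (0 : ℝ) < m := by exact_mod_cast hm
  have e1 : corner m dig [b] i = (dig b i : ℝ) * (m : ℝ)⁻¹ := by
    simp [corner, div_eq_mul_inv]
  rw [e1] at h
  simp only [List.length_singleton] at h
  have hb1 : (1 : ℝ) ≤ dig b i := by exact_mod_cast (hb i).1
  have hb2 : (dig b i : ℝ) + 2 ≤ m := by exact_mod_cast (hb i).2
  have hq : (0 : ℝ) < (m : ℝ)⁻¹ ^ (v.length + 1) := by positivity
  have e2 : (m : ℝ)⁻¹ ^ v.length * ((dig b i : ℝ) * (m : ℝ)⁻¹)
      = (m : ℝ)⁻¹ ^ (v.length + 1) * dig b i := by rw [pow_succ]; ring
  have e3 : (m : ℝ)⁻¹ ^ v.length = (m : ℝ)⁻¹ ^ (v.length + 1) * m := by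
    rw [pow_succ]; field_simp
  rw [e2] at h
  constructor
  · nlinarith [h.1]
  · rw [e3]
    nlinarith [h.2]

include hm hdig in
/-- Cubes of incomparable words have disjoint interiors. -/
lemma exists_sep (hinj : Function.Injective dig) (u v : List B) (huv : ¬ u <+: v)
    (hvu : ¬ v <+: u) :
    ∃ i, corner m dig u i + (m : ℝ)⁻¹ ^ u.length ≤ corner m dig v i ∨
      corner m dig v i + (m : ℝ)⁻¹ ^ v.length ≤ corner m dig u i := by
  have hm' : (0 : ℝ) < m := by exact_mod_cast hm
  induction u generalizing v with
  | nil => exact absurd (List.nil_prefix) huv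
  | cons b u ih =>
    cases v with
    | nil => exact absurd (List.nil_prefix) hvu
    | cons b' v =>
      have key : ∀ (c c' : B) (w w' : List B) (i : Fin d), dig c i < dig c' i →
          corner m dig (c :: w) i + (m : ℝ)⁻¹ ^ (c :: w).length ≤ corner m dig (c' :: w') i := by
        intro c c' w w' i hlt
        simp only [corner, List.length_cons, pow_succ]
        have h1 := corner_add_le (m := m) (dig := dig) hm hdig w i
        have h2 := corner_nonneg (m := m) (dig := dig) hm w' i
        have h3 : (dig c i : ℝ) + 1 ≤ dig c' i := by exact_mod_cast hlt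
        have : ((dig c i : ℝ) + corner m dig w i) / m + (m : ℝ)⁻¹ ^ w.length * (m : ℝ)⁻¹
            = ((dig c i : ℝ) + (corner m dig w i + (m : ℝ)⁻¹ ^ w.length)) / m := by
          rw [div_eq_mul_inv, div_eq_mul_inv]; ring
        rw [this]
        refine div_le_div_of_nonneg_right ?_ hm'.le
        linarith
      by_cases hbb : b = b'
      · subst hbb
        have h1 : ¬ u <+: v := fun h => huv (List.cons_prefix_cons.2 ⟨rfl, h⟩)
        have h2 : ¬ v <+: u := fun h => hvu (List.cons_prefix_cons.2 ⟨rfl, h⟩)
        obtain ⟨i, hi⟩ := ih v h1 h2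
        refine ⟨i, ?_⟩
        have e : ∀ w : List B, corner m dig (b :: w) i + (m : ℝ)⁻¹ ^ (b :: w).length
            = ((dig b i : ℝ) + (corner m dig w i + (m : ℝ)⁻¹ ^ w.length)) / m := by
          intro w
          simp only [corner, List.length_cons, pow_succ]
          rw [div_eq_mul_inv, div_eq_mul_inv]; ring
        rcases hi with hi | hi
        · left
          rw [e]
          simp only [corner]
          gcongr
        · right
          rw [e]
          simp only [corner]
          gcongr
      · have hne : dig b ≠ dig b' := fun h => hbb (hinj h)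
        obtain ⟨i, hi⟩ := Function.ne_iff.1 hne
        refine ⟨i, ?_⟩
        rcases lt_or_gt_of_ne hi with hlt | hlt
        · left; exact key b b' u v i hlt
        · right; exact key b' b v u i hlt

end Corner

section Tree

variable {B : Type*} {d : ℕ} (m : ℕ) (dig : B → Fin d → ℕ) (K : Set (List B))

/-- A word of the tree is isolated if all its children in the tree are interior subcubes. -/
def Isolated (v : List B) : Prop := v ∈ K ∧ ∀ b, v ++ [b] ∈ K → InteriorLetter m dig b

open Classical in
/-- The number of isolated proper initial segments. -/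
noncomputable def rank (v : List B) : ℕ :=
  ((Finset.range v.length).filter (fun j => Isolated m dig K (v.take j))).card

/-- The limit set of a tree of words. -/
def limit : Set (Fin d → ℝ) := {x | ∀ k, ∃ v ∈ K, v.length = k ∧ x ∈ cube m dig v}

/-- The two points lie in the inner cube of a common isolated word of rank `k`. -/
def Common (k : ℕ) (x y : Fin d → ℝ) : Prop :=
  ∃ v, Isolated m dig K v ∧ rank m dig K v = k ∧ x ∈ inner m dig v ∧ y ∈ inner m dig v

variable {m dig K}

lemma rank_le (v : List B) : rank m dig K v ≤ v.length := by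
  classical
  unfold rank
  calc _ ≤ (Finset.range v.length).card := Finset.card_filter_le _ _
    _ = _ := Finset.card_range _

lemma rank_take_succ (v : List B) {l : ℕ} (hl : l < v.length) :
    (Isolated m dig K (v.take l) ∧ rank m dig K (v.take (l + 1)) = rank m dig K (v.take l) + 1) ∨
    (¬ Isolated m dig K (v.take l) ∧
      rank m dig K (v.take (l + 1)) = rank m dig K (v.take l)) := by
  classical
  have e : ∀ j, j ≤ v.length → rank m dig K (v.take j) =
      ((Finset.range j).filter (fun i => Isolated m dig K (v.take i))).card := by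
    intro j hj
    unfold rank
    rw [List.length_take, min_eq_left hj]
    congr 1
    apply Finset.filter_congr
    intro i hi
    rw [Finset.mem_range] at hi
    rw [List.take_take, min_eq_left hi.le]
  rw [e _ hl, e _ hl.le, Finset.range_add_one]
  by_cases h : Isolated m dig K (v.take l)
  · left
    refine ⟨h, ?_⟩
    rw [Finset.filter_insert, if_pos h, Finset.card_insert_of_notMem (by simp)]
  · right
    refine ⟨h, ?_⟩
    rw [Finset.filter_insert, if_neg h]

lemma rank_mono_take (v : List B) {l l' : ℕ} (h : l ≤ l') (hl : l' ≤ v.length) :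
    rank m dig K (v.take l) ≤ rank m dig K (v.take l') ∧
      rank m dig K (v.take l') ≤ rank m dig K (v.take l) + (l' - l) := by
  induction l', h using Nat.le_induction with
  | base => simp
  | succ n hn ih =>
    have ih' := ih (by omega)
    rcases rank_take_succ (m := m) (dig := dig) (K := K) v (l := n) (by omega) with h1 | h1
    · rw [h1.2]; omega
    · rw [h1.2]; omega

lemma rank_lt {v w : List B} (h : v <+: w) (hne : v ≠ w) (hv : Isolated m dig K v) :
    rank m dig K v < rank m dig K w := by
  have e : v = w.take v.length := List.prefix_iff_eq_take.1 h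
  have hl : v.length < w.length := by
    rcases lt_or_eq_of_le h.length_le with h1 | h1
    · exact h1
    · exact absurd (h.eq_of_length h1) hne
  have h2 := rank_take_succ (m := m) (dig := dig) (K := K) w hl
  rw [← e] at h2
  have h3 := (rank_mono_take (m := m) (dig := dig) (K := K) w (l := v.length + 1)
    (l' := w.length) (by omega) le_rfl).1
  rw [List.take_length] at h3
  rcases h2 with h2 | h2
  · omega
  · exact absurd hv h2.1

lemma rank_prefix_bound {v w : List B} (h : v <+: w) :
    rank m dig K v ≤ rank m dig K w ∧
    rank m dig K w + v.length ≤ rank m dig K v + w.length := by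
  have e : v = w.take v.length := List.prefix_iff_eq_take.1 h
  have h3 := rank_mono_take (m := m) (dig := dig) (K := K) w (l := v.length)
    (l' := w.length) h.length_le le_rfl
  rw [List.take_length, ← e] at h3
  have := h.length_le
  omega

lemma exists_rank_eq {w : List B} {j : ℕ} (hj : j < rank m dig K w) :
    ∃ u, u <+: w ∧ u ≠ w ∧ Isolated m dig K u ∧ rank m dig K u = j := by
  classical
  have hex : ∃ l, l ≤ w.length ∧ j < rank m dig K (w.take l) :=
    ⟨w.length, le_rfl, by rwa [List.take_length]⟩
  have hf := Nat.find_spec hex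
  set l := Nat.find hex with hl
  have hl0 : l ≠ 0 := by
    intro h0
    rw [h0] at hf
    simp [rank] at hf
  obtain ⟨n, hn⟩ : ∃ n, l = n + 1 := ⟨l - 1, by omega⟩
  have hmin : rank m dig K (w.take n) ≤ j := by
    by_contra hcon
    push Not at hcon
    have := Nat.find_min' hex (m := n) ⟨by omega, hcon⟩
    omega
  rw [hn] at hf
  have hs := rank_take_succ (m := m) (dig := dig) (K := K) w (l := n) (by omega)
  refine ⟨w.take n, List.take_prefix _ _, ?_, ?_, ?_⟩
  · intro h
    have := congrArg List.length h
    rw [List.length_take] at this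
    omega
  · rcases hs with hs | hs
    · exact hs.1
    · exfalso; omega
  · rcases hs with hs | hs <;> omega

variable (hm : 2 ≤ m) (hdig : ∀ b i, dig b i < m) (hinj : Function.Injective dig)

include hm in
lemma inner_lt {v : List B} {x : Fin d → ℝ} (hx : x ∈ inner m dig v) (i : Fin d) :
    corner m dig v i < x i ∧ x i < corner m dig v i + (m : ℝ)⁻¹ ^ v.length := by
  have hm' : (0 : ℝ) < m := by exact_mod_cast (by omega : 0 < m)
  have hq : (0 : ℝ) < (m : ℝ)⁻¹ ^ (v.length + 1) := by positivity
  exact ⟨by linarith [(hx i).1], by linarith [(hx i).2]⟩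

include hm hdig hinj in
lemma comparable {v w : List B} {x : Fin d → ℝ} (hx : x ∈ inner m dig v)
    (hx' : x ∈ cube m dig w) (hlen : v.length ≤ w.length) : v <+: w := by
  by_contra hcon
  have h2 : ¬ w <+: v := fun h => by
    have := h.eq_of_length (le_antisymm h.length_le hlen)
    exact hcon (this ▸ List.prefix_refl _)
  obtain ⟨i, hi⟩ := exists_sep (m := m) (dig := dig) (by omega) hdig hinj v w hcon h2
  have h3 := inner_lt hm hx i
  have h4 := hx' i
  rcases hi with hi | hi
  · linarith [h4.1, h3.2]
  · linarith [h4.2, h3.1]

include hm hdig hinj in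
/-- A point of the limit set in the open cube of an isolated word lies in the inner cube. -/
lemma limit_inner {v : List B} (hv : Isolated m dig K v) {x : Fin d → ℝ}
    (hx : x ∈ limit m dig K)
    (hxv : ∀ i, corner m dig v i < x i ∧ x i < corner m dig v i + (m : ℝ)⁻¹ ^ v.length) :
    x ∈ inner m dig v := by
  obtain ⟨u, hu, hul, hxu⟩ := hx (v.length + 1)
  have hpre : v <+: u := by
    by_contra hcon
    have h2 : ¬ u <+: v := fun h => by
      have := h.length_le
      omega
    obtain ⟨i, hi⟩ := exists_sep (m := m) (dig := dig) (by omega) hdig hinj v u hcon h2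
    have h3 := hxv i
    have h4 := hxu i
    rcases hi with hi | hi
    · linarith [h4.1, h3.2]
    · linarith [h4.2, h3.1]
  obtain ⟨w, rfl⟩ := hpre
  rw [List.length_append] at hul
  obtain ⟨b, rfl⟩ := List.length_eq_one_iff.1 (show w.length = 1 by omega)
  exact cube_subset_inner (by omega) (hv.2 b hu) hxu

include hm hdig in
/-- If `v` is isolated and a proper initial segment of `w ∈ K`, then the cube of `w` lies in
the inner cube of `v`. -/
lemma cube_subset_inner_of_prefix {v w : List B} (hv : Isolated m dig K v)
    (hK : ∀ u v : List B, u <+: v → v ∈ K → u ∈ K) (h : v <+: w) (hne : v ≠ w) (hw : w ∈ K) :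
    cube m dig w ⊆ inner m dig v := by
  obtain ⟨u, rfl⟩ := h
  cases u with
  | nil => simp at hne
  | cons b u =>
    have h1 : v ++ [b] <+: v ++ b :: u := by
      rw [List.prefix_append_right_inj]
      exact ⟨u, rfl⟩
    have h2 : v ++ [b] ∈ K := hK _ _ h1 hw
    exact (cube_subset_of_prefix (by omega) hdig h1).trans
      (cube_subset_inner (by omega) (hv.2 b h2))

include hm hdig in
lemma Common.down (hK : ∀ u v : List B, u <+: v → v ∈ K → u ∈ K) {k j : ℕ}
    {x y : Fin d → ℝ} (h : Common m dig K k x y) (hj : j < k) :
    Common m dig K j x y := by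
  obtain ⟨v, hv, hvk, hx, hy⟩ := h
  obtain ⟨u, hu, hne, hui, hur⟩ := exists_rank_eq (m := m) (dig := dig) (K := K) (w := v)
    (j := j) (by omega)
  have hsub := cube_subset_inner_of_prefix hm hdig hui hK hu hne hv.1
  exact ⟨u, hui, hur, hsub (inner_subset_cube (by omega) v hx),
    hsub (inner_subset_cube (by omega) v hy)⟩

include hm hdig hinj in
lemma isolated_unique {v w : List B} (hv : Isolated m dig K v)
    (hw : Isolated m dig K w) (hr : rank m dig K v = rank m dig K w)
    {x : Fin d → ℝ} (hx : x ∈ inner m dig v) (hx' : x ∈ inner m dig w) : v = w := by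
  by_contra hne
  rcases le_total v.length w.length with h | h
  · have := comparable hm hdig hinj hx (inner_subset_cube (by omega) w hx') h
    have := rank_lt this hne hv
    omega
  · have := comparable hm hdig hinj hx' (inner_subset_cube (by omega) v hx) h
    have := rank_lt this (Ne.symm hne) hw
    omega

lemma dist_le_side {v : List B} {x y : Fin d → ℝ} (hx : x ∈ cube m dig v)
    (hy : y ∈ cube m dig v) : dist x y ≤ (m : ℝ)⁻¹ ^ v.length := by
  have hm' : (0 : ℝ) ≤ (m : ℝ)⁻¹ ^ v.length := by positivity
  rw [dist_pi_le_iff hm']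
  intro i
  rw [Real.dist_eq, abs_le]
  constructor
  · linarith [(hx i).1, (hy i).2]
  · linarith [(hx i).2, (hy i).1]

include hm in
lemma Common.dist_le {k : ℕ} {x y : Fin d → ℝ} (h : Common m dig K k x y) :
    dist x y ≤ (m : ℝ)⁻¹ ^ k := by
  obtain ⟨v, hv, hvk, hx, hy⟩ := h
  have h1 := dist_le_side (inner_subset_cube (by omega) v hx) (inner_subset_cube (by omega) v hy)
  refine h1.trans ?_
  have hm' : (1 : ℝ) ≤ m := by exact_mod_cast (by omega : 1 ≤ m)
  refine pow_le_pow_of_le_one (by positivity) (inv_le_one_of_one_le₀ hm') ?_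
  rw [← hvk]
  exact rank_le v

end Tree

end Q169.MP
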