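import Pool.Agent.Q169.MP.Prob

/-!
Growth of the number of surviving words: almost surely on survival, the number of level `k`
words whose subtree survives is not `O(b ^ k)` for any `b` smaller than the mean offspring number.
-/

namespace Q169.MP

open Set Filter Topology MeasureTheory ProbabilityTheory
open scoped ENNReal NNReal

section Moments

variable {A : Type} [Fintype A]

open Classical in
/-- The sum over the kept words of a given length of a functional of the subtree. -/
noncomputable def TT (G : (List A × A → Bool) → ℝ≥0∞) (k : ℕ) (ω : List A × A → Bool) : ℝ≥0∞ :=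
  levelSum k (fun w => if Kept ω w then G (shiftW w ω) else 0)

/-- the indicator that a first-level letter is kept -/
noncomputable def keepInd (a : A) (ω : List A × A → Bool) : ℝ≥0∞ :=
  if ω ([], a) = true then 1 else 0

variable {G : (List A × A → Bool) → ℝ≥0∞}

lemma TT_zero (ω : List A × A → Bool) : TT G 0 ω = G ω := by
  unfold TT
  rw [levelSum_zero, if_pos (kept_nil ω), shiftW_nil]

lemma TT_succ (k : ℕ) (ω : List A × A → Bool) :
    TT G (k + 1) ω = ∑ a, keepInd a ω * TT G k (shiftW [a] ω) := by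
  classical
  unfold TT
  rw [levelSum_succ]
  refine Finset.sum_congr rfl fun a _ => ?_
  unfold keepInd
  by_cases h : ω ([], a) = true
  · rw [if_pos h, one_mul]
    congr 1
    ext w
    simp only [kept_cons, h, true_and]
    rfl
  · rw [if_neg h, zero_mul]
    unfold levelSum
    apply Finset.sum_eq_zero
    intro w _
    refine if_neg ?_
    rw [kept_cons]
    tauto

omit [Fintype A] in
lemma measurable_keepInd (a : A) {S : Set (List A × A)} (h : (([], a) : List A × A) ∈ S) :
    Measurable[mS S] (keepInd a) := by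
  have h1 := measurable_coord (A := A) h
  have h2 : Measurable (fun b : Bool => if b = true then (1 : ℝ≥0∞) else 0) :=
    measurable_of_countable _
  exact h2.comp h1

omit [Fintype A] in
lemma measurable_keepInd' (a : A) : Measurable (keepInd a) := by
  have h2 : Measurable (fun b : Bool => if b = true then (1 : ℝ≥0∞) else 0) :=
    measurable_of_countable _
  exact h2.comp (measurable_pi_apply (([], a) : List A × A))

lemma measurable_TT (hG : Measurable G) (k : ℕ) : Measurable (TT G k) := by
  induction k with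
  | zero =>
    have : TT G 0 = G := by ext ω; exact TT_zero ω
    rw [this]; exact hG
  | succ k ih =>
    have : TT G (k + 1) = fun ω => ∑ a, keepInd a ω * TT G k (shiftW [a] ω) := by
      ext ω; exact TT_succ k ω
    rw [this]
    refine Finset.measurable_sum _ fun a _ => ?_
    exact (measurable_keepInd' a).mul (ih.comp (measurable_shiftW' [a]))

/-- the coordinates of the branch of the letter `a` -/
def block (a : A) : Set (List A × A) := insert ([], a) (below [a])

omit [Fintype A] in
lemma disjoint_root_below (a : A) : Disjoint ({([], a)} : Set (List A × A)) (below [a]) := by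
  rw [Set.disjoint_singleton_left]
  intro h
  have := List.IsPrefix.length_le h
  simp at this

omit [Fintype A] in
lemma disjoint_block {a b : A} (hab : a ≠ b) : Disjoint (block a) (block b) := by
  rw [Set.disjoint_left]
  rintro ⟨u, c⟩ h1 h2
  simp only [block, Set.mem_insert_iff, Prod.mk.injEq, below, Set.mem_ofPred_eq] at h1 h2
  rcases h1 with ⟨h1, h1'⟩ | h1
  · rcases h2 with ⟨h2, h2'⟩ | h2
    · exact hab (h1'.symm.trans h2')
    · rw [h1] at h2
      have := List.IsPrefix.length_le h2
      simp at this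
  · rcases h2 with ⟨h2, h2'⟩ | h2
    · rw [h2] at h1
      have := List.IsPrefix.length_le h1
      simp at this
    · cases u with
      | nil => 
        have := List.IsPrefix.length_le h1
        simp at this
      | cons e u =>
        rw [List.cons_prefix_cons] at h1 h2
        exact hab (h1.1.trans h2.1.symm)

omit [Fintype A] in
lemma mS_mono {S T : Set (List A × A)} (h : S ⊆ T) : mS S ≤ mS T :=
  biSup_mono h

omit [Fintype A] in
lemma measurable_comp_shift (w : List A) {S : Set (List A × A)} (hS : below w ⊆ S)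
    {β : Type} [MeasurableSpace β] {f : (List A × A → Bool) → β} (hf : Measurable f) :
    Measurable[mS S] (fun ω => f (shiftW w ω)) :=
  hf.comp ((measurable_shiftW w).mono (mS_mono hS) le_rfl)

variable (ν : Measure Bool) [IsProbabilityMeasure ν]

omit [Fintype A] in
lemma lintegral_keep_mul (a : A) {f : (List A × A → Bool) → ℝ≥0∞} (hf : Measurable f) :
    ∫⁻ ω, keepInd a ω * f (shiftW [a] ω) ∂(prodM A ν) =
      ν {true} * ∫⁻ ω, f ω ∂(prodM A ν) := by
  rw [lintegral_mul_indep ν (disjoint_root_below a)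
    (measurable_keepInd a (by simp)) (measurable_comp_shift [a] subset_rfl hf),
    lintegral_shiftW ν [a] hf]
  congr 1
  exact lintegral_coord ν ([], a)

lemma lintegral_TT (hG : Measurable G) (k : ℕ) :
    ∫⁻ ω, TT G k ω ∂(prodM A ν) = (Fintype.card A * ν {true}) ^ k * ∫⁻ ω, G ω ∂(prodM A ν) := by
  induction k with
  | zero => simp [TT_zero]
  | succ k ih =>
    simp_rw [TT_succ]
    rw [lintegral_finsetSum]
    · simp_rw [lintegral_keep_mul ν _ (measurable_TT hG k), ih]
      rw [Finset.sum_const, Finset.card_univ, nsmul_eq_mul, pow_succ]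
      ring
    · intro a _
      exact (measurable_keepInd' a).mul ((measurable_TT hG k).comp (measurable_shiftW' [a]))

lemma lintegral_TT_sq (hG : Measurable G) (k : ℕ) :
    ∫⁻ ω, TT G (k + 1) ω ^ 2 ∂(prodM A ν) ≤
      (Fintype.card A * ν {true}) * ∫⁻ ω, TT G k ω ^ 2 ∂(prodM A ν) +
      (Fintype.card A * ν {true}) ^ 2 * (∫⁻ ω, TT G k ω ∂(prodM A ν)) ^ 2 := by
  classical
  have hX : ∀ a : A, Measurable (fun ω : List A × A → Bool =>
      keepInd a ω * TT G k (shiftW [a] ω)) := fun a =>
    (measurable_keepInd' a).mul ((measurable_TT hG k).comp (measurable_shiftW' [a]))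
  have e : ∀ ω : List A × A → Bool, TT G (k + 1) ω ^ 2 = ∑ a, ∑ b,
      (keepInd a ω * TT G k (shiftW [a] ω)) * (keepInd b ω * TT G k (shiftW [b] ω)) := by
    intro ω
    rw [TT_succ, sq, Finset.sum_mul_sum]
  simp_rw [e]
  have hXX : ∀ a b : A, Measurable (fun ω : List A × A → Bool =>
      (keepInd a ω * TT G k (shiftW [a] ω)) * (keepInd b ω * TT G k (shiftW [b] ω))) :=
    fun a b => (hX a).mul (hX b)
  rw [lintegral_finsetSum _ (fun a _ => Finset.measurable_fun_sum _ fun b _ => hXX a b)]
  have h1 : ∀ a b : A, ∫⁻ ω, (keepInd a ω * TT G k (shiftW [a] ω)) *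
      (keepInd b ω * TT G k (shiftW [b] ω)) ∂(prodM A ν) ≤
      (if a = b then ν {true} * ∫⁻ ω, TT G k ω ^ 2 ∂(prodM A ν) else 0) +
        ν {true} ^ 2 * (∫⁻ ω, TT G k ω ∂(prodM A ν)) ^ 2 := by
    intro a b
    by_cases hab : a = b
    · subst hab
      rw [if_pos rfl]
      refine le_add_right (le_of_eq ?_)
      rw [← lintegral_keep_mul ν a (f := fun ω => TT G k ω ^ 2) ((measurable_TT hG k).pow_const 2)]
      congr 1
      ext ω
      unfold keepInd
      split_ifs
      · ring
      · ring
    · rw [if_neg hab, zero_add]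
      apply le_of_eq
      rw [lintegral_mul_indep ν (disjoint_block hab) (S := block a) (T := block b)]
      · rw [lintegral_keep_mul ν a (measurable_TT hG k), lintegral_keep_mul ν b (measurable_TT hG k)]
        ring
      · exact Measurable.mul (measurable_keepInd a (by simp [block]))
          (measurable_comp_shift [a] (Set.subset_insert _ _) (measurable_TT hG k))
      · exact Measurable.mul (measurable_keepInd b (by simp [block]))
          (measurable_comp_shift [b] (Set.subset_insert _ _) (measurable_TT hG k))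
  calc ∑ a : A, ∫⁻ ω, ∑ b : A, (keepInd a ω * TT G k (shiftW [a] ω)) *
      (keepInd b ω * TT G k (shiftW [b] ω)) ∂(prodM A ν)
      = ∑ a : A, ∑ b : A, ∫⁻ ω, (keepInd a ω * TT G k (shiftW [a] ω)) *
      (keepInd b ω * TT G k (shiftW [b] ω)) ∂(prodM A ν) := by
        refine Finset.sum_congr rfl fun a _ => ?_
        rw [lintegral_finsetSum _ (fun b _ => hXX a b)]
    _ ≤ ∑ a : A, ∑ b : A, ((if a = b then ν {true} * ∫⁻ ω, TT G k ω ^ 2 ∂(prodM A ν) else 0) +
        ν {true} ^ 2 * (∫⁻ ω, TT G k ω ∂(prodM A ν)) ^ 2) :=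
        Finset.sum_le_sum fun a _ => Finset.sum_le_sum fun b _ => h1 a b
    _ = _ := by
        simp only [Finset.sum_add_distrib, Finset.sum_ite_eq, Finset.mem_univ, if_true,
          Finset.sum_const, Finset.card_univ, nsmul_eq_mul]
        ring

/-- uniform second moment bound -/
lemma second_moment (hG : Measurable G) (hG1 : ∀ ω, G ω ≤ 1)
    (hM : 1 < (Fintype.card A * ν {true} : ℝ≥0∞)) :
    ∃ C : ℕ, ∀ k, ∫⁻ ω, TT G k ω ^ 2 ∂(prodM A ν) ≤
      C * (Fintype.card A * ν {true}) ^ (2 * k) := by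
  set M : ℝ≥0∞ := Fintype.card A * ν {true} with hMdef
  have hMtop : M ≠ ∞ := ENNReal.mul_ne_top (by simp) (measure_ne_top _ _)
  have hM1 : M - 1 ≠ 0 := by
    rw [Ne, tsub_eq_zero_iff_le, not_le]; exact hM
  obtain ⟨C, hC⟩ := ENNReal.exists_nat_mul_gt hM1 hMtop
  have hC0 : C ≠ 0 := by
    rintro rfl
    simp at hC
  have hkey : C + M ≤ C * M := by
    calc C + M ≤ C + C * (M - 1) := by gcongr
      _ = C * (1 + (M - 1)) := by ring
      _ = C * M := by rw [add_tsub_cancel_of_le hM.le]
  refine ⟨C, fun k => ?_⟩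
  induction k with
  | zero =>
    simp only [TT_zero, mul_zero, pow_zero, mul_one]
    calc ∫⁻ ω, G ω ^ 2 ∂(prodM A ν) ≤ ∫⁻ ω, 1 ∂(prodM A ν) := by
          apply lintegral_mono
          intro ω
          exact pow_le_one₀ zero_le (hG1 ω)
      _ = 1 := by simp
      _ ≤ C := by exact_mod_cast Nat.one_le_iff_ne_zero.2 hC0
  | succ k ih =>
    refine (lintegral_TT_sq ν hG k).trans ?_
    rw [← hMdef, lintegral_TT ν hG k, ← hMdef]
    have hG2 : ∫⁻ ω, G ω ∂(prodM A ν) ≤ 1 := by
      calc ∫⁻ ω, G ω ∂(prodM A ν) ≤ ∫⁻ ω, 1 ∂(prodM A ν) := lintegral_mono hG1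
        _ = 1 := by simp
    calc M * ∫⁻ ω, TT G k ω ^ 2 ∂(prodM A ν) + M ^ 2 * (M ^ k * ∫⁻ ω, G ω ∂(prodM A ν)) ^ 2
        ≤ M * (C * M ^ (2 * k)) + M ^ 2 * (M ^ k * 1) ^ 2 := by gcongr
      _ = M * (C + M) * M ^ (2 * k) := by ring
      _ ≤ M * (C * M) * M ^ (2 * k) := by gcongr
      _ = _ := by ring

/-- If the normalized sums tend to zero almost surely, the functional vanishes almost surely. -/
lemma lintegral_eq_zero_of_tendsto (hG : Measurable G) (hG1 : ∀ ω, G ω ≤ 1)
    (hM : 1 < (Fintype.card A * ν {true} : ℝ≥0∞))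
    (h : ∀ᵐ ω ∂(prodM A ν), Tendsto (fun k => TT G k ω / (Fintype.card A * ν {true}) ^ k)
      atTop (𝓝 0)) :
    ∫⁻ ω, G ω ∂(prodM A ν) = 0 := by
  obtain ⟨C, hC⟩ := second_moment ν hG hG1 hM
  set M : ℝ≥0∞ := Fintype.card A * ν {true} with hMdef
  have hMtop : M ≠ ∞ := ENNReal.mul_ne_top (by simp) (measure_ne_top _ _)
  have hM0 : M ≠ 0 := (lt_trans zero_lt_one hM).ne'
  have hx : ∀ k, Measurable (fun ω => TT G k ω / M ^ k) := fun k =>
    (measurable_TT hG k).div_const _
  have hmain : ∀ R : ℕ, 0 < R → ∫⁻ ω, G ω ∂(prodM A ν) ≤ C / R := by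
    intro R hR
    have hR0 : (R : ℝ≥0∞) ≠ 0 := by exact_mod_cast hR.ne'
    have hRt : (R : ℝ≥0∞) ≠ ∞ := ENNReal.natCast_ne_top R
    have hle : ∀ k, ∫⁻ ω, G ω ∂(prodM A ν) ≤
        ∫⁻ ω, min (TT G k ω / M ^ k) R ∂(prodM A ν) + C / R := by
      intro k
      have hMk0 : M ^ k ≠ 0 := pow_ne_zero _ hM0
      have hMkt : M ^ k ≠ ∞ := ENNReal.pow_ne_top hMtop
      have h1 : ∫⁻ ω, G ω ∂(prodM A ν) = ∫⁻ ω, TT G k ω / M ^ k ∂(prodM A ν) := by
        simp_rw [div_eq_mul_inv]
        rw [lintegral_mul_const _ (measurable_TT hG k), lintegral_TT ν hG k, ← hMdef,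
          mul_comm, ← mul_assoc, ENNReal.inv_mul_cancel hMk0 hMkt, one_mul]
      rw [h1]
      have h2 : ∀ ω, TT G k ω / M ^ k ≤
          min (TT G k ω / M ^ k) R + (TT G k ω / M ^ k) ^ 2 / R := by
        intro ω
        set x := TT G k ω / M ^ k
        rcases le_total x R with hxR | hxR
        · rw [min_eq_left hxR]
          exact le_add_right le_rfl
        · refine le_add_left ?_
          rw [ENNReal.le_div_iff_mul_le (Or.inl hR0) (Or.inl hRt), sq]
          gcongr
      calc ∫⁻ ω, TT G k ω / M ^ k ∂(prodM A ν)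
          ≤ ∫⁻ ω, (min (TT G k ω / M ^ k) R + (TT G k ω / M ^ k) ^ 2 / R) ∂(prodM A ν) :=
            lintegral_mono h2
        _ = ∫⁻ ω, min (TT G k ω / M ^ k) R ∂(prodM A ν) +
            ∫⁻ ω, (TT G k ω / M ^ k) ^ 2 / R ∂(prodM A ν) :=
            lintegral_add_left ((hx k).min measurable_const) _
        _ ≤ _ := by
            gcongr
            simp_rw [div_eq_mul_inv, mul_pow, mul_assoc]
            rw [lintegral_mul_const _ ((measurable_TT hG k).pow_const 2)]
            calc (∫⁻ ω, TT G k ω ^ 2 ∂(prodM A ν)) * ((M ^ k)⁻¹ ^ 2 * (R : ℝ≥0∞)⁻¹)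
                ≤ (C * M ^ (2 * k)) * ((M ^ k)⁻¹ ^ 2 * (R : ℝ≥0∞)⁻¹) := by
                  gcongr
                  exact hC k
              _ = C * (M ^ k * (M ^ k)⁻¹) ^ 2 * (R : ℝ≥0∞)⁻¹ := by ring
              _ = _ := by
                  rw [ENNReal.mul_inv_cancel hMk0 hMkt, one_pow, mul_one]
    have hlim : Tendsto (fun k => ∫⁻ ω, min (TT G k ω / M ^ k) R ∂(prodM A ν)) atTop
        (𝓝 (∫⁻ _, 0 ∂(prodM A ν))) := by
      refine tendsto_lintegral_of_dominated_convergence (fun _ => (R : ℝ≥0∞))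
        (fun k => (hx k).min measurable_const) (fun k => ?_) ?_ ?_
      · filter_upwards with ω
        exact min_le_right _ _
      · simp
      · filter_upwards [h] with ω hω
        refine tendsto_of_tendsto_of_tendsto_of_le_of_le tendsto_const_nhds hω
          (fun _ => zero_le) (fun _ => min_le_left _ _)
    have h3 : Tendsto (fun k => ∫⁻ ω, min (TT G k ω / M ^ k) R ∂(prodM A ν) + C / R) atTop
        (𝓝 (∫⁻ _, 0 ∂(prodM A ν) + C / R)) := hlim.add tendsto_const_nhds
    rw [lintegral_zero, zero_add] at h3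
    exact ge_of_tendsto' h3 hle
  by_contra hne
  obtain ⟨R, hR⟩ := ENNReal.exists_nat_mul_gt hne (ENNReal.natCast_ne_top C)
  have hR0 : 0 < R := by
    rcases Nat.eq_zero_or_pos R with h0 | h0
    · subst h0; simp at hR
    · exact h0
  have h4 := hmain R hR0
  rw [ENNReal.le_div_iff_mul_le (Or.inl (by exact_mod_cast hR0.ne'))
    (Or.inl (ENNReal.natCast_ne_top R)), mul_comm] at h4
  exact absurd hR (not_lt.2 h4)

end Moments

end Q169.MP
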