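import Pool.Agent.Q169.MP.Metric
import Pool.Agent.Q169.MP.Defs

/-!
The deterministic upper bound: if the weighted sum over the tree is finite, the conformal upper
box dimension of the limit set is at most the exponent.
-/

namespace Q169.MP

open Set Filter Topology
open scoped ENNReal NNReal

lemma exists_eta (c : ℝ≥0) (hc : 0 < c) : ∃ η : ℝ≥0 ≃ₜ ℝ≥0, ∀ t, η t = c * (t + t ^ 2) := by
  have hmono : StrictMono (fun t : ℝ≥0 => c * (t + t ^ 2)) := by
    intro a b hab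
    have h1 : a ^ 2 ≤ b ^ 2 := pow_le_pow_left₀ (by positivity) hab.le 2
    have h2 : a + a ^ 2 < b + b ^ 2 := add_lt_add_of_lt_of_le hab h1
    exact mul_lt_mul_of_pos_left h2 hc
  have hsurj : Function.Surjective (fun t : ℝ≥0 => c * (t + t ^ 2)) := by
    intro y
    have hcont : Continuous (fun t : ℝ≥0 => c * (t + t ^ 2)) := by fun_prop
    refine mem_range_of_exists_le_of_exists_ge hcont ⟨0, by simp⟩ ⟨y / c, ?_⟩
    have : c * (y / c) = y := mul_div_cancel₀ y hc.ne'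
    calc y = c * (y / c) := this.symm
      _ ≤ c * (y / c + (y / c) ^ 2) := by
        gcongr
        exact le_add_of_nonneg_right (by positivity)
  exact ⟨(hmono.orderIsoOfSurjective _ hsurj).toHomeomorph, fun t => rfl⟩

lemma dist_ofLp_le {d : ℕ} (x y : EuclideanSpace ℝ (Fin d)) :
    dist x.ofLp y.ofLp ≤ dist x y := by
  rw [dist_pi_le_iff dist_nonneg]
  intro i
  rw [EuclideanSpace.dist_eq]
  apply Real.le_sqrt_of_sq_le
  exact Finset.single_le_sum (f := fun i => dist (x i) (y i) ^ 2)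
    (fun j _ => by positivity) (Finset.mem_univ i)

lemma dist_le_ofLp {d : ℕ} (x y : EuclideanSpace ℝ (Fin d)) :
    dist x y ≤ (d + 1) * dist x.ofLp y.ofLp := by
  rw [EuclideanSpace.dist_eq]
  apply Real.sqrt_le_iff.2 ⟨by positivity, ?_⟩
  calc ∑ i, dist (x i) (y i) ^ 2 ≤ ∑ i : Fin d, dist x.ofLp y.ofLp ^ 2 := by
        apply Finset.sum_le_sum
        intro i _
        have : dist (x i) (y i) ≤ dist x.ofLp y.ofLp := dist_le_pi_dist x.ofLp y.ofLp i
        gcongr
    _ = d * dist x.ofLp y.ofLp ^ 2 := by simp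
    _ ≤ ((d + 1) * dist x.ofLp y.ofLp) ^ 2 := by
        have h0 : (0 : ℝ) ≤ d := Nat.cast_nonneg d
        have h1 : (d : ℝ) ≤ (d + 1) ^ 2 := by nlinarith
        rw [mul_pow]
        gcongr

section

variable {B : Type*} {d : ℕ} {m : ℕ} {dig : B → Fin d → ℕ} {K : Set (List B)}

/-- The weight of a word. -/
noncomputable def wt (m : ℕ) (dig : B → Fin d → ℕ) (K : Set (List B)) (v : List B) : ℝ :=
  (m : ℝ)⁻¹ ^ (v.length + rank m dig K v)

/-- The embedding restricted to a subset of Euclidean space. -/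
noncomputable def phi (hm : 2 ≤ m) (hdig : ∀ b i, dig b i < m)
    {S : Set (EuclideanSpace ℝ (Fin d))} (hS : ∀ x ∈ S, x.ofLp ∈ limit m dig K) (x : S) :
    BoundedContinuousFunction ℕ (Fin d → ℝ) :=
  emb hm hdig ⟨x.1.ofLp, hS _ x.2⟩

lemma phi_isEmbedding (hm : 2 ≤ m) (hdig : ∀ b i, dig b i < m) (hinj : Function.Injective dig)
    {S : Set (EuclideanSpace ℝ (Fin d))} (hS : ∀ x ∈ S, x.ofLp ∈ limit m dig K) :
    IsEmbedding (phi hm hdig hS) := by
  have hm0 : (0 : ℝ) < m := by exact_mod_cast (by omega : 0 < m)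
  apply IsUniformEmbedding.isEmbedding
  rw [Metric.isUniformEmbedding_iff']
  constructor
  · intro ε hε
    refine ⟨ε / m, by positivity, fun {a b} hab => ?_⟩
    have h1 := emb_upper hm hdig hinj ⟨a.1.ofLp, hS _ a.2⟩ ⟨b.1.ofLp, hS _ b.2⟩ (N := 0)
      (by intro j hj; omega)
    have h2 := dist_ofLp_le a.1 b.1
    have h3 : dist a b = dist a.1 b.1 := rfl
    rw [h3] at hab
    rw [lt_div_iff₀ hm0] at hab
    calc dist (phi hm hdig hS a) (phi hm hdig hS b)
        ≤ (m : ℝ)⁻¹ ^ 0 * (m * dist a.1.ofLp b.1.ofLp) := h1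
      _ ≤ (m : ℝ)⁻¹ ^ 0 * (m * dist a.1 b.1) := by gcongr
      _ = dist a.1 b.1 * m := by ring
      _ < ε := hab
  · intro δ hδ
    refine ⟨(δ / (d + 1)) ^ 2 / (2 * m), by positivity, fun {a b} hab => ?_⟩
    have h1 := emb_holder hm hdig hinj ⟨a.1.ofLp, hS _ a.2⟩ ⟨b.1.ofLp, hS _ b.2⟩
    rw [lt_div_iff₀ (by positivity)] at hab
    have h2 : dist a.1.ofLp b.1.ofLp ^ 2 < (δ / (d + 1)) ^ 2 := by
      refine lt_of_le_of_lt h1 ?_
      calc _ = dist (phi hm hdig hS a) (phi hm hdig hS b) * (2 * m) := by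
            unfold phi; ring
        _ < _ := hab
    have h3 : dist a.1.ofLp b.1.ofLp < δ / (d + 1) := lt_of_pow_lt_pow_left₀ 2 (by positivity) h2
    have h4 := dist_le_ofLp a.1 b.1
    have h5 : dist a b = dist a.1 b.1 := rfl
    rw [h5]
    have h6 : (0 : ℝ) < d + 1 := by positivity
    calc dist a.1 b.1 ≤ (d + 1) * dist a.1.ofLp b.1.ofLp := h4
      _ < (d + 1) * (δ / (d + 1)) := by gcongr
      _ = δ := by field_simp

lemma phi_qs (hm : 2 ≤ m) (hdig : ∀ b i, dig b i < m) (hinj : Function.Injective dig)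
    {S : Set (EuclideanSpace ℝ (Fin d))} (hS : ∀ x ∈ S, x.ofLp ∈ limit m dig K) :
    ∃ f : S ≃ₜ Set.range (phi hm hdig hS), IsQuasisymmetric f := by
  have hm0 : (0 : ℝ) < m := by exact_mod_cast (by omega : 0 < m)
  refine ⟨(phi_isEmbedding hm hdig hinj hS).toHomeomorph, ?_⟩
  obtain ⟨η, hη⟩ := exists_eta ((2 * m ^ 3 * (d + 1) ^ 2 : ℕ) : ℝ≥0)
    (by exact_mod_cast (by positivity : 0 < 2 * m ^ 3 * (d + 1) ^ 2))
  refine ⟨η, fun x a b t ht h => ?_⟩
  have h1 : dist x.1.ofLp a.1.ofLp ≤ (t * (d + 1)) * dist x.1.ofLp b.1.ofLp := by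
    calc _ ≤ dist x.1 a.1 := dist_ofLp_le _ _
      _ ≤ t * dist x.1 b.1 := h
      _ ≤ t * ((d + 1) * dist x.1.ofLp b.1.ofLp) := by
          have := dist_le_ofLp x.1 b.1
          gcongr
      _ = _ := by ring
  have h2 := emb_qs hm hdig hinj ⟨x.1.ofLp, hS _ x.2⟩ ⟨a.1.ofLp, hS _ a.2⟩
    ⟨b.1.ofLp, hS _ b.2⟩ (t := t * (d + 1)) (by positivity) h1
  have h3 : ∀ u v : S, dist ((phi_isEmbedding hm hdig hinj hS).toHomeomorph u)
      ((phi_isEmbedding hm hdig hinj hS).toHomeomorph v) =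
      dist (phi hm hdig hS u) (phi hm hdig hS v) := fun u v => rfl
  rw [h3, h3, hη]
  refine h2.trans ?_
  have h4 : (0 : ℝ) ≤ d := Nat.cast_nonneg d
  have ht0 : (0 : ℝ) < t := by exact_mod_cast ht
  unfold phi
  apply mul_le_mul_of_nonneg_right _ dist_nonneg
  push_cast
  have h5 : (t : ℝ) * (d + 1) + (t * (d + 1)) ^ 2 ≤ (d + 1) ^ 2 * (t + t ^ 2) := by
    have : (1 : ℝ) ≤ d + 1 := by linarith
    nlinarith [mul_nonneg ht0.le (mul_nonneg (by linarith : (0 : ℝ) ≤ d + 1) h4)]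
  calc 2 * (m : ℝ) ^ 3 * ((t : ℝ) * (d + 1) + (t * (d + 1)) ^ 2)
      ≤ 2 * (m : ℝ) ^ 3 * ((d + 1) ^ 2 * (t + t ^ 2)) := by gcongr
    _ = _ := by ring

lemma wt_pos (hm : 2 ≤ m) (v : List B) : 0 < wt m dig K v := by
  have hm0 : (0 : ℝ) < m := by exact_mod_cast (by omega : 0 < m)
  unfold wt; positivity

/-- stopping words -/
lemma exists_stop (hm : 2 ≤ m)
    (hK : ∀ u v : List B, u <+: v → v ∈ K → u ∈ K) (hdig : ∀ b i, dig b i < m)
    {x : Fin d → ℝ} (hx : x ∈ limit m dig K) {ρ : ℝ} (hρ : 0 < ρ) (hρ1 : ρ < 1) :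
    ∃ v ∈ K, x ∈ cube m dig v ∧ wt m dig K v ≤ ρ ∧ ρ < m ^ 2 * wt m dig K v := by
  classical
  have hm' : (2 : ℝ) ≤ m := by exact_mod_cast hm
  have hm0 : (0 : ℝ) < m := by linarith
  have hinv : (m : ℝ)⁻¹ < 1 := by
    rw [inv_lt_one₀ hm0]; linarith
  obtain ⟨k, hk⟩ := exists_pow_lt_of_lt_one hρ hinv
  obtain ⟨v, hv, hvk, hxv⟩ := hx k
  have hex : ∃ l, l ≤ v.length ∧ wt m dig K (v.take l) ≤ ρ := by
    refine ⟨v.length, le_rfl, ?_⟩
    rw [List.take_length]
    unfold wt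
    refine le_trans ?_ hk.le
    exact pow_le_pow_of_le_one (by positivity) hinv.le (by omega)
  have hf := Nat.find_spec hex
  set l := Nat.find hex with hl
  have hl0 : l ≠ 0 := by
    intro h0
    rw [h0] at hf
    simp [wt, rank] at hf
    linarith
  obtain ⟨n, hn⟩ : ∃ n, l = n + 1 := ⟨l - 1, by omega⟩
  have hmin : ρ < wt m dig K (v.take n) := by
    by_contra hcon
    push Not at hcon
    have := Nat.find_min' hex (m := n) ⟨by omega, hcon⟩
    omega
  rw [hn] at hf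
  refine ⟨v.take (n + 1), hK _ _ (List.take_prefix _ _) hv,
    cube_subset_of_prefix (by omega) hdig (List.take_prefix _ _) hxv, hf.2, ?_⟩
  refine lt_of_lt_of_le hmin ?_
  have hr := rank_take_succ (m := m) (dig := dig) (K := K) v (l := n) (by omega)
  have hr' : rank m dig K (v.take (n + 1)) ≤ rank m dig K (v.take n) + 1 := by
    rcases hr with hr | hr <;> omega
  unfold wt
  rw [List.length_take, List.length_take, min_eq_left (by omega), min_eq_left (by omega)]
  have e : (m : ℝ) ^ 2 * (m : ℝ)⁻¹ ^ (n + rank m dig K (v.take n) + 2)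
      = (m : ℝ)⁻¹ ^ (n + rank m dig K (v.take n)) := by
    have h22 : (m : ℝ) ^ 2 * (m : ℝ)⁻¹ ^ 2 = 1 := by
      rw [← mul_pow, mul_inv_cancel₀ hm0.ne', one_pow]
    rw [pow_add _ _ 2]
    calc _ = (m : ℝ)⁻¹ ^ (n + rank m dig K (v.take n)) * ((m : ℝ) ^ 2 * (m : ℝ)⁻¹ ^ 2) := by ring
      _ = _ := by rw [h22, mul_one]
  rw [← e]
  have : (m : ℝ)⁻¹ ^ (n + rank m dig K (v.take n) + 2) ≤
      (m : ℝ)⁻¹ ^ (n + 1 + rank m dig K (v.take (n + 1))) :=
    pow_le_pow_of_le_one (by positivity) hinv.le (by omega)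
  gcongr

open Classical in
/-- The deterministic upper bound. -/
theorem conformal_le (hm : 2 ≤ m) (hdig : ∀ b i, dig b i < m) (hinj : Function.Injective dig)
    (hK : ∀ u v : List B, u <+: v → v ∈ K → u ∈ K)
    {S : Set (EuclideanSpace ℝ (Fin d))} (hS : ∀ x ∈ S, x.ofLp ∈ limit m dig K)
    {s : ℝ} (hs : 0 < s)
    (hW : ∑' v : List B, (if v ∈ K then ENNReal.ofReal (wt m dig K v ^ s) else 0) ≠ ∞) :
    conformalUpperBoxDim S ≤ s := by
  have hm' : (2 : ℝ) ≤ m := by exact_mod_cast hm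
  have hm0 : (0 : ℝ) < m := by linarith
  set W := ∑' v : List B, (if v ∈ K then ENNReal.ofReal (wt m dig K v ^ s) else 0) with hWdef
  unfold conformalUpperBoxDim
  refine iInf_le_of_le (Set.range (phi hm hdig hS)) (iInf_le_of_le inferInstance
    (iInf_le_of_le (phi_qs hm hdig hinj hS) ?_))
  -- the constant
  have hCpos : 0 < (W.toReal + 1) * (m : ℝ) ^ (3 * s) := by positivity
  refine upperBoxDim_le hCpos hm0 (fun r hr0 hr1 => ?_)
  have hr : (0 : ℝ) < r := by exact_mod_cast hr0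
  set ρ : ℝ := r / m with hρ
  have hρ0 : 0 < ρ := by positivity
  have hρ1 : ρ < 1 := by rw [hρ, div_lt_one hm0]; exact hr1
  set V : Set (List B) := {v | v ∈ K ∧ wt m dig K v ≤ ρ ∧ ρ < m ^ 2 * wt m dig K v} with hV
  -- counting
  have hcount : (V.encard : ℝ≥0∞) * ENNReal.ofReal ((ρ / m ^ 2) ^ s) ≤ W := by
    have h1 : (V.encard : ℝ≥0∞) * ENNReal.ofReal ((ρ / m ^ 2) ^ s) =
        ∑' _ : V, ENNReal.ofReal ((ρ / m ^ 2) ^ s) := by
      rw [ENNReal.tsum_const]
      rfl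
    rw [h1]
    calc ∑' _ : V, ENNReal.ofReal ((ρ / m ^ 2) ^ s)
        ≤ ∑' v : V, (if v.1 ∈ K then ENNReal.ofReal (wt m dig K v.1 ^ s) else 0) := by
          apply ENNReal.tsum_le_tsum
          intro v
          rw [if_pos v.2.1]
          apply ENNReal.ofReal_le_ofReal
          apply Real.rpow_le_rpow (by positivity) _ hs.le
          rw [div_le_iff₀ (by positivity)]
          have := v.2.2.2
          linarith
      _ ≤ W := by
          exact ENNReal.tsum_comp_le_tsum_of_injective Subtype.val_injective _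
  -- covering
  have hcov : Metric.coveringNumber r (univ : Set (Set.range (phi hm hdig hS))) ≤ V.encard := by
    have hch : ∀ v : List B, (∃ x : S, x.1.ofLp ∈ cube m dig v) →
        ∃ y : S, y.1.ofLp ∈ cube m dig v := fun v h => h
    let V' : Set (List B) := {v | v ∈ V ∧ ∃ x : S, x.1.ofLp ∈ cube m dig v}
    have hV'V : V' ⊆ V := fun v hv => hv.1
    by_cases hne : Nonempty S
    · let pt : List B → S := fun v =>
        if h : ∃ x : S, x.1.ofLp ∈ cube m dig v then h.choose else Classical.choice hne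
      let g : List B → Set.range (phi hm hdig hS) := fun v => ⟨phi hm hdig hS (pt v), ⟨_, rfl⟩⟩
      have hc : Metric.IsCover r (univ : Set (Set.range (phi hm hdig hS))) (g '' V') := by
        rintro ⟨_, x, rfl⟩ -
        obtain ⟨v, hvK, hxv, hv1, hv2⟩ := exists_stop hm hK hdig (hS _ x.2) hρ0 hρ1
        have hvV' : v ∈ V' := ⟨⟨hvK, hv1, hv2⟩, ⟨x, hxv⟩⟩
        refine ⟨g v, ⟨v, hvV', rfl⟩, ?_⟩
        have hpt : (pt v).1.ofLp ∈ cube m dig v := by
          have h : ∃ x : S, x.1.ofLp ∈ cube m dig v := ⟨x, hxv⟩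
          have e : pt v = h.choose := dif_pos h
          rw [e]
          exact h.choose_spec
        have h1 := emb_cube hm hdig hinj hK ⟨x.1.ofLp, hS _ x.2⟩ ⟨(pt v).1.ofLp, hS _ (pt v).2⟩
          hvK hxv hpt
        have h2 : dist (phi hm hdig hS x) (phi hm hdig hS (pt v)) ≤ r := by
          refine h1.trans ?_
          calc (m : ℝ) * (m : ℝ)⁻¹ ^ (v.length + rank m dig K v) = m * wt m dig K v := rfl
            _ ≤ m * ρ := by gcongr
            _ = r := by rw [hρ]; field_simp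
        show edist (phi hm hdig hS x) (phi hm hdig hS (pt v)) ≤ r
        rw [edist_dist]
        rw [show ((r : ℝ≥0) : ℝ≥0∞) = ENNReal.ofReal (r : ℝ) by
          rw [ENNReal.ofReal_coe_nnreal]]
        exact ENNReal.ofReal_le_ofReal h2
      calc _ ≤ (g '' V').encard := hc.coveringNumber_le_encard (subset_univ _)
        _ ≤ V'.encard := encard_image_le _ _
        _ ≤ V.encard := encard_le_encard hV'V
    · have hempty : (univ : Set (Set.range (phi hm hdig hS))) = ∅ := by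
        rw [Set.univ_eq_empty_iff]
        constructor
        rintro ⟨_, x, _⟩
        exact hne ⟨x⟩
      rw [hempty]
      simp
  have h1 : ((Metric.coveringNumber r (univ : Set (Set.range (phi hm hdig hS))) : ℕ∞) : ℝ≥0∞)
      ≤ (V.encard : ℝ≥0∞) := by exact_mod_cast hcov
  refine h1.trans ?_
  have hq : 0 < (ρ / m ^ 2) ^ s := by positivity
  have h2 : (V.encard : ℝ≥0∞) ≤ W / ENNReal.ofReal ((ρ / m ^ 2) ^ s) := by
    rw [ENNReal.le_div_iff_mul_le (Or.inl (by simpa using hq)) (Or.inl ENNReal.ofReal_ne_top)]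
    exact hcount
  refine h2.trans ?_
  have hWe : W / ENNReal.ofReal ((ρ / m ^ 2) ^ s) =
      ENNReal.ofReal (W.toReal / (ρ / m ^ 2) ^ s) := by
    rw [ENNReal.ofReal_div_of_pos hq, ENNReal.ofReal_toReal hW]
  rw [hWe]
  apply ENNReal.ofReal_le_ofReal
  have e1 : ρ / (m : ℝ) ^ 2 = r * ((m : ℝ) ^ (3 : ℕ))⁻¹ := by
    rw [hρ]; field_simp
  rw [e1, Real.mul_rpow hr.le (by positivity), Real.inv_rpow (by positivity),
    ← Real.rpow_natCast, ← Real.rpow_mul hm0.le]
  have e2 : W.toReal / ((r : ℝ) ^ s * ((m : ℝ) ^ (((3 : ℕ) : ℝ) * s))⁻¹) =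
      W.toReal * (m : ℝ) ^ (3 * s) * (r : ℝ) ^ (-s) := by
    rw [Real.rpow_neg hr.le]
    push_cast
    field_simp
  rw [e2]
  have : 0 < (r : ℝ) ^ (-s) := by positivity
  have h3 : 0 < (m : ℝ) ^ (3 * s) := by positivity
  have h4 : 0 ≤ W.toReal := ENNReal.toReal_nonneg
  gcongr
  linarith

end

end Q169.MP
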