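import Pool.Agent.Q169.MP.Surv
import Pool.Agent.Q169.MP.Upper

/-!
The deterministic lower bound: fast growth of the number of surviving cubes bounds the upper box
dimension from below.
-/

namespace Q169.MP

open Set Filter Topology MeasureTheory ProbabilityTheory
open scoped ENNReal NNReal

section

variable {d n : ℕ}

lemma digit_lt (a : Letter d n) (i : Fin d) : digit a i < n := (a i).2

lemma digit_injective : Function.Injective (digit : Letter d n → Fin d → ℕ) := by
  intro a b h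
  ext i
  exact congrFun h i

/-- the set of kept words -/
def keptSet (ω : List (Letter d n) × Letter d n → Bool) : Set (List (Letter d n)) :=
  {w | Kept ω w}

lemma mem_perc_iff (ω : List (Letter d n) × Letter d n → Bool) (x : EuclideanSpace ℝ (Fin d)) :
    x ∈ perc d n ω ↔ x.ofLp ∈ limit n digit (keptSet ω) := by
  simp only [perc, percLevel, Set.mem_iInter, Set.mem_iUnion, limit, Set.mem_ofPred_eq, keptSet,
    cube, cubeE, exists_prop]
  constructor
  · intro h k
    obtain ⟨w, hw1, hw2, hw3⟩ := h k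
    exact ⟨w, hw2, hw1, hw3⟩
  · intro h k
    obtain ⟨w, hw1, hw2, hw3⟩ := h k
    exact ⟨w, hw2, hw1, hw3⟩

lemma cube_eq_Icc {B : Type} (m : ℕ) (dig : B → Fin d → ℕ) (v : List B) :
    cube m dig v = Set.Icc (corner m dig v) (fun i => corner m dig v i + (m : ℝ)⁻¹ ^ v.length) := by
  ext x
  simp only [cube, Set.mem_ofPred_eq, Set.mem_Icc, Pi.le_def]
  exact ⟨fun h => ⟨fun i => (h i).1, fun i => (h i).2⟩, fun h i => ⟨h.1 i, h.2 i⟩⟩

lemma limit_nonempty (hn : 2 ≤ n) {ω : List (Letter d n) × Letter d n → Bool} (h : Surv ω) :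
    (limit n digit (keptSet ω)).Nonempty := by
  have hn0 : 0 < n := by omega
  let C : ℕ → Set (Fin d → ℝ) := fun k =>
    ⋃ w ∈ {w : List (Letter d n) | w.length = k ∧ Kept ω w}, cube n digit w
  have hfin : ∀ k, {w : List (Letter d n) | w.length = k ∧ Kept ω w}.Finite := fun k =>
    (List.finite_length_eq (Letter d n) k).subset (fun w hw => hw.1)
  have hne : (⋂ k, C k).Nonempty := by
    refine IsCompact.nonempty_iInter_of_sequence_nonempty_isCompact_isClosed C ?_ ?_ ?_ ?_
    · intro k x hx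
      simp only [C, Set.mem_iUnion, Set.mem_ofPred_eq, exists_prop] at hx ⊢
      obtain ⟨w, ⟨hw1, hw2⟩, hw3⟩ := hx
      refine ⟨w.take k, ⟨?_, hw2.take k⟩,
        cube_subset_of_prefix hn0 digit_lt (List.take_prefix _ _) hw3⟩
      rw [List.length_take]; omega
    · intro k
      obtain ⟨w, hw1, hw2⟩ := h k
      refine ⟨corner n digit w, ?_⟩
      simp only [C, Set.mem_iUnion, Set.mem_ofPred_eq, exists_prop]
      refine ⟨w, ⟨hw1, hw2⟩, fun i => ⟨le_rfl, ?_⟩⟩
      have : (0 : ℝ) ≤ (n : ℝ)⁻¹ ^ w.length := by positivity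
      linarith
    · refine (hfin 0).isCompact_biUnion fun w _ => ?_
      rw [cube_eq_Icc]
      exact isCompact_Icc
    · intro k
      refine (hfin k).isClosed_biUnion fun w _ => ?_
      rw [cube_eq_Icc]
      exact isClosed_Icc
  obtain ⟨x, hx⟩ := hne
  refine ⟨x, fun k => ?_⟩
  have hk := Set.mem_iInter.1 hx k
  simp only [C, Set.mem_iUnion, Set.mem_ofPred_eq, exists_prop] at hk
  obtain ⟨w, ⟨hw1, hw2⟩, hw3⟩ := hk
  exact ⟨w, hw2, hw1, hw3⟩

lemma exists_point (hn : 2 ≤ n) {ω : List (Letter d n) × Letter d n → Bool}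
    {u : List (Letter d n)} (hu : Kept ω u) (h : Surv (shiftW u ω)) :
    ∃ x : perc d n ω, x.1.ofLp ∈ cube n digit u := by
  have hn0 : 0 < n := by omega
  obtain ⟨y, hy⟩ := limit_nonempty hn h
  have key : ∀ w : List (Letter d n), y ∈ cube n digit w →
      (fun i => corner n digit u i + (n : ℝ)⁻¹ ^ u.length * y i) ∈ cube n digit (u ++ w) := by
    intro w hw i
    rw [corner_append, List.length_append, pow_add]
    have h1 := hw i
    have hp : (0 : ℝ) ≤ (n : ℝ)⁻¹ ^ u.length := by positivity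
    constructor
    · have := mul_le_mul_of_nonneg_left h1.1 hp
      linarith
    · have := mul_le_mul_of_nonneg_left h1.2 hp
      linarith
  refine ⟨⟨WithLp.toLp 2 (fun i => corner n digit u i + (n : ℝ)⁻¹ ^ u.length * y i), ?_⟩, ?_⟩
  · rw [mem_perc_iff]
    intro k
    obtain ⟨w, hw1, hw2, hw3⟩ := hy k
    refine ⟨(u ++ w).take k, ((kept_append ω u w).2 ⟨hu, hw1⟩).take k, ?_,
      cube_subset_of_prefix hn0 digit_lt (List.take_prefix _ _) (key w hw3)⟩
    rw [List.length_take, List.length_append]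
    omega
  · obtain ⟨w, hw1, hw2, hw3⟩ := hy 0
    exact cube_append_subset hn0 digit_lt u w (key w hw3)

lemma exists_cornerNat (hn : 2 ≤ n) (w : List (Letter d n)) (i : Fin d) :
    ∃ z : ℕ, corner n digit w i = z * (n : ℝ)⁻¹ ^ w.length := by
  have hn0 : (0 : ℝ) < n := by exact_mod_cast (by omega : 0 < n)
  induction w with
  | nil => exact ⟨0, by simp [corner]⟩
  | cons b v ih =>
    obtain ⟨z, hz⟩ := ih
    refine ⟨digit b i * n ^ v.length + z, ?_⟩
    simp only [corner, hz, List.length_cons, pow_succ]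
    push_cast
    have : (n : ℝ) ^ v.length * (n : ℝ)⁻¹ ^ v.length = 1 := by
      rw [← mul_pow, mul_inv_cancel₀ hn0.ne', one_pow]
    rw [div_eq_mul_inv]
    calc ((digit b i : ℝ) + z * (n : ℝ)⁻¹ ^ v.length) * (n : ℝ)⁻¹
        = ((digit b i : ℝ) * ((n : ℝ) ^ v.length * (n : ℝ)⁻¹ ^ v.length)
          + z * (n : ℝ)⁻¹ ^ v.length) * (n : ℝ)⁻¹ := by rw [this, mul_one]
      _ = _ := by ring

lemma NN_eq_encard (k : ℕ) (ω : List (Letter d n) × Letter d n → Bool) :
    NN k ω = (({v : Fin k → Letter d n | Kept ω (List.ofFn v) ∧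
      Surv (shiftW (List.ofFn v) ω)}.encard : ℕ∞) : ℝ≥0∞) := by
  classical
  unfold NN TT levelSum
  have : {v : Fin k → Letter d n | Kept ω (List.ofFn v) ∧ Surv (shiftW (List.ofFn v) ω)} =
      ((Finset.univ.filter (fun v : Fin k → Letter d n => Kept ω (List.ofFn v) ∧
        Surv (shiftW (List.ofFn v) ω)) : Finset _) : Set (Fin k → Letter d n)) := by
    ext v; simp
  rw [this, Set.encard_coe_eq_coe_finsetCard, ENat.toENNReal_coe]
  rw [Finset.card_filter]
  push_cast
  refine Finset.sum_congr rfl fun v _ => ?_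
  by_cases h1 : Kept ω (List.ofFn v)
  · by_cases h2 : Surv (shiftW (List.ofFn v) ω)
    · simp [h1, h2]
    · simp [h1, h2]
  · simp [h1]

/-- counting surviving cubes by covering numbers -/
lemma NN_le_covering (hn : 2 ≤ n) (k : ℕ) (ω : List (Letter d n) × Letter d n → Bool) :
    NN k ω ≤ 4 ^ d * ((Metric.coveringNumber (((n : ℝ≥0)⁻¹) ^ k)
      (univ : Set (perc d n ω)) : ℕ∞) : ℝ≥0∞) := by
  classical
  have hn0 : (0 : ℝ) < n := by exact_mod_cast (by omega : 0 < n)
  by_cases htop : Metric.coveringNumber (((n : ℝ≥0)⁻¹) ^ k) (univ : Set (perc d n ω)) = ⊤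
  · rw [htop]
    simp
  obtain ⟨C, -, -, hC2, hC3⟩ := Metric.exists_set_encard_eq_coveringNumber htop
  rw [← hC3, NN_eq_encard]
  set U := {v : Fin k → Letter d n | Kept ω (List.ofFn v) ∧ Surv (shiftW (List.ofFn v) ω)}
    with hU
  rcases U.eq_empty_or_nonempty with hUe | ⟨v₀, hv₀⟩
  · rw [hUe]; simp
  obtain ⟨x₀, -⟩ := exists_point hn hv₀.1 hv₀.2
  have hnonempty : Nonempty (perc d n ω) := ⟨x₀⟩
  have hx : ∀ v : Fin k → Letter d n, v ∈ U → ∃ c ∈ C, ∃ x : perc d n ω,
      x.1.ofLp ∈ cube n digit (List.ofFn v) ∧ edist x c ≤ ((((n : ℝ≥0)⁻¹) ^ k : ℝ≥0) : ℝ≥0∞) := by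
    intro v hv
    obtain ⟨x, hx⟩ := exists_point hn hv.1 hv.2
    obtain ⟨c, hc, hxc⟩ := hC2 (Set.mem_univ x)
    exact ⟨c, hc, x, hx, hxc⟩
  choose! c hcC x hxcube hxc using hx
  choose z hz using fun (v : Fin k → Letter d n) (i : Fin d) => exists_cornerNat hn (List.ofFn v) i
  let code : (Fin k → Letter d n) → (perc d n ω) × (Fin d → Fin 4) :=
    fun v => (c v, fun i => ⟨z v i % 4, Nat.mod_lt _ (by norm_num)⟩)
  have hmaps : MapsTo code U (C ×ˢ (univ : Set (Fin d → Fin 4))) := by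
    intro v hv
    exact ⟨hcC v hv, Set.mem_univ _⟩
  have hside : (0 : ℝ) < (n : ℝ)⁻¹ ^ k := by positivity
  have hinj : InjOn code U := by
    intro v hv v' hv' hcode
    simp only [code, Prod.mk.injEq] at hcode
    obtain ⟨hc1, hc2⟩ := hcode
    by_contra hne
    -- the two points are close
    have hdist : ∀ i, |(x v).1.ofLp i - (x v').1.ofLp i| ≤ 2 * (n : ℝ)⁻¹ ^ k := by
      intro i
      have h1 : dist (x v) (c v) ≤ (n : ℝ)⁻¹ ^ k := by
        have := hxc v hv
        rw [edist_dist] at this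
        have h2 := ENNReal.toReal_mono ENNReal.coe_ne_top this
        rw [ENNReal.toReal_ofReal dist_nonneg] at h2
        simpa using h2
      have h2 : dist (x v') (c v) ≤ (n : ℝ)⁻¹ ^ k := by
        have := hxc v' hv'
        rw [← hc1, edist_dist] at this
        have h2 := ENNReal.toReal_mono ENNReal.coe_ne_top this
        rw [ENNReal.toReal_ofReal dist_nonneg] at h2
        simpa using h2
      have h3 : dist (x v) (x v') ≤ 2 * (n : ℝ)⁻¹ ^ k := by
        have := dist_triangle_right (x v) (x v') (c v)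
        linarith
      have h4 : dist (x v).1.ofLp (x v').1.ofLp ≤ dist (x v) (x v') := dist_ofLp_le _ _
      have h5 := dist_le_pi_dist (x v).1.ofLp (x v').1.ofLp i
      rw [Real.dist_eq] at h5
      linarith
    -- the corners are far
    have hlen : ∀ u : Fin k → Letter d n, (List.ofFn u).length = k := fun u => List.length_ofFn
    have hne' : List.ofFn v ≠ List.ofFn v' := fun h => hne (List.ofFn_injective h)
    have hp1 : ¬ List.ofFn v <+: List.ofFn v' := fun h =>
      hne' (h.eq_of_length (by rw [hlen, hlen]))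
    have hp2 : ¬ List.ofFn v' <+: List.ofFn v := fun h =>
      hne' (h.eq_of_length (by rw [hlen, hlen])).symm
    obtain ⟨i, hi⟩ := exists_sep (m := n) (dig := digit) (by omega) digit_lt digit_injective
      (List.ofFn v) (List.ofFn v') hp1 hp2
    have hmod : z v i % 4 = z v' i % 4 := by
      have := congrFun hc2 i
      simpa using this
    have hxv := hxcube v hv i
    have hxv' := hxcube v' hv' i
    rw [hz v i, hz v' i, hlen, hlen] at hi
    rw [hz v i, hlen] at hxv
    rw [hz v' i, hlen] at hxv'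
    have habs := abs_le.1 (hdist i)
    rcases hi with hi | hi
    · have h1 : (z v i : ℝ) + 1 ≤ z v' i := by
        have : ((z v i : ℝ) + 1) * (n : ℝ)⁻¹ ^ k ≤ z v' i * (n : ℝ)⁻¹ ^ k := by linarith
        exact le_of_mul_le_mul_right this hside
      have h2 : z v i + 1 ≤ z v' i := by exact_mod_cast h1
      have h3 : z v i + 4 ≤ z v' i := by omega
      have h4 : (z v i : ℝ) + 4 ≤ z v' i := by exact_mod_cast h3
      have h5 : ((z v i : ℝ) + 4) * (n : ℝ)⁻¹ ^ k ≤ z v' i * (n : ℝ)⁻¹ ^ k := by gcongr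
      linarith [hxv.2, hxv'.1, habs.1]
    · have h1 : (z v' i : ℝ) + 1 ≤ z v i := by
        have : ((z v' i : ℝ) + 1) * (n : ℝ)⁻¹ ^ k ≤ z v i * (n : ℝ)⁻¹ ^ k := by linarith
        exact le_of_mul_le_mul_right this hside
      have h2 : z v' i + 1 ≤ z v i := by exact_mod_cast h1
      have h3 : z v' i + 4 ≤ z v i := by omega
      have h4 : (z v' i : ℝ) + 4 ≤ z v i := by exact_mod_cast h3
      have h5 : ((z v' i : ℝ) + 4) * (n : ℝ)⁻¹ ^ k ≤ z v i * (n : ℝ)⁻¹ ^ k := by gcongr
      linarith [hxv.1, hxv'.2, habs.2]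
  have hle := Set.encard_le_encard_of_injOn hmaps hinj
  rw [Set.encard_prod] at hle
  have hcard : (univ : Set (Fin d → Fin 4)).encard = ((4 ^ d : ℕ) : ℕ∞) := by
    rw [Set.encard_univ, ENat.card_eq_coe_fintype_card]
    simp
  rw [hcard] at hle
  calc ((U.encard : ℕ∞) : ℝ≥0∞) ≤ ((C.encard * ((4 ^ d : ℕ) : ℕ∞) : ℕ∞) : ℝ≥0∞) := by
        exact_mod_cast hle
    _ = _ := by
        rw [ENat.toENNReal_mul, ENat.toENNReal_coe]
        push_cast
        ring

/-- If growth at rate `n ^ s` is exceeded then the upper box dimension is at least `s`. -/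
theorem le_upperBoxDim (hn : 2 ≤ n) {s : ℝ} {ω : List (Letter d n) × Letter d n → Bool}
    (h : ¬ Slow (ENNReal.ofReal ((n : ℝ) ^ s)) ω) :
    (s : EReal) ≤ upperBoxDim (perc d n ω) := by
  by_contra hcon
  push Not at hcon
  obtain ⟨r₀, hr₀, hcov⟩ := le_of_upperBoxDim_lt hcon
  have hn' : (2 : ℝ) ≤ n := by exact_mod_cast hn
  have hn0 : (0 : ℝ) < n := by linarith
  apply h
  have hinv : (n : ℝ)⁻¹ < 1 := by
    rw [inv_lt_one₀ hn0]; linarith
  obtain ⟨k₀, hk₀⟩ := exists_pow_lt_of_lt_one hr₀ hinv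
  have hb0 : 0 < (n : ℝ) ^ s := by positivity
  -- bound for large k
  have hlarge : ∀ k, k₀ ≤ k → NN k ω ≤ 4 ^ d * ENNReal.ofReal ((n : ℝ) ^ s) ^ k := by
    intro k hk
    refine (NN_le_covering hn k ω).trans ?_
    gcongr
    have hr : 0 < ((n : ℝ≥0)⁻¹) ^ k := by
      have : (0 : ℝ≥0) < n := by exact_mod_cast (by omega : 0 < n)
      positivity
    have h1 : ((((n : ℝ≥0)⁻¹) ^ k : ℝ≥0) : ℝ) < r₀ := by
      push_cast
      exact lt_of_le_of_lt (pow_le_pow_of_le_one (by positivity) hinv.le hk) hk₀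
    refine (hcov _ hr h1).trans (le_of_eq ?_)
    rw [← ENNReal.ofReal_pow hb0.le]
    congr 1
    push_cast
    rw [← Real.rpow_natCast, ← Real.rpow_natCast, ← Real.rpow_mul (by positivity),
      Real.inv_rpow hn0.le, ← Real.rpow_neg hn0.le, ← Real.rpow_mul hn0.le]
    congr 1
    ring
  -- each value is finite
  have hfin : ∀ k, NN k ω ≠ ∞ := by
    intro k
    rw [NN_eq_encard]
    rw [Ne, ENat.toENNReal_eq_top, Set.encard_eq_top_iff]
    simpa using Set.toFinite _
  have hb0' : ENNReal.ofReal ((n : ℝ) ^ s) ≠ 0 := by simpa using hb0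
  have hbt : ENNReal.ofReal ((n : ℝ) ^ s) ≠ ∞ := ENNReal.ofReal_ne_top
  have hexk : ∀ k, ∃ C : ℕ, NN k ω ≤ C * ENNReal.ofReal ((n : ℝ) ^ s) ^ k := by
    intro k
    obtain ⟨C, hC⟩ := ENNReal.exists_nat_mul_gt (a := ENNReal.ofReal ((n : ℝ) ^ s) ^ k)
      (pow_ne_zero _ hb0') (hfin k)
    exact ⟨C, hC.le⟩
  choose Ck hCk using hexk
  refine ⟨4 ^ d + (Finset.range k₀).sup Ck, fun k => ?_⟩
  rcases le_or_gt k₀ k with hk | hk
  · refine (hlarge k hk).trans ?_
    gcongr
    push_cast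
    exact le_self_add
  · refine (hCk k).trans ?_
    gcongr
    have : Ck k ≤ (Finset.range k₀).sup Ck := Finset.le_sup (Finset.mem_range.2 hk)
    exact this.trans (Nat.le_add_left _ _)

end

end Q169.MP
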