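import Pool.Agent.Q169.MP.UpperProb

/-!
The main theorem on the conformal upper box dimension of Mandelbrot percolation.
-/

namespace Q169.MP

open Set Filter Topology MeasureTheory ProbabilityTheory
open scoped ENNReal NNReal

section

variable {d n : ℕ} (ν : Measure Bool) [IsProbabilityMeasure ν]

lemma lintegral_XX (x : ℝ≥0∞) (c : Letter d n × Letter d n) :
    ∫⁻ ω, XX x c ω ∂(prodM (Letter d n) ν) =
      x * prodM (Letter d n) ν {ω | KeepP c ω ∧ ¬ IsoRoot ω} +
      x ^ 2 * prodM (Letter d n) ν {ω | KeepP c ω ∧ IsoRoot ω} := by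
  classical
  have hk : MeasurableSet {ω : List (Letter d n) × Letter d n → Bool | KeepP c ω} :=
    mS_le _ _ (measurableSet_keepP c)
  have hi : MeasurableSet {ω : List (Letter d n) × Letter d n → Bool | IsoRoot ω} :=
    mS_le _ _ measurableSet_isoRoot
  have h1 : MeasurableSet {ω : List (Letter d n) × Letter d n → Bool |
      KeepP c ω ∧ ¬ IsoRoot ω} := hk.inter hi.compl
  have h2 : MeasurableSet {ω : List (Letter d n) × Letter d n → Bool |
      KeepP c ω ∧ IsoRoot ω} := hk.inter hi
  have e : ∀ ω : List (Letter d n) × Letter d n → Bool, XX x c ω =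
      x * (if KeepP c ω ∧ ¬ IsoRoot ω then 1 else 0) +
      x ^ 2 * (if KeepP c ω ∧ IsoRoot ω then 1 else 0) := by
    intro ω
    unfold XX
    by_cases ha : KeepP c ω <;> by_cases hb : IsoRoot ω <;> simp [ha, hb]
  simp_rw [e]
  have m1 : Measurable (fun ω : List (Letter d n) × Letter d n → Bool =>
      (if KeepP c ω ∧ ¬ IsoRoot ω then (1 : ℝ≥0∞) else 0)) :=
    Measurable.ite h1 measurable_const measurable_const
  have m2 : Measurable (fun ω : List (Letter d n) × Letter d n → Bool =>
      (if KeepP c ω ∧ IsoRoot ω then (1 : ℝ≥0∞) else 0)) :=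
    Measurable.ite h2 measurable_const measurable_const
  rw [lintegral_add_left (m1.const_mul x), lintegral_const_mul _ m1, lintegral_const_mul _ m2,
    lintegral_ind ν h1, lintegral_ind ν h2]

lemma exists_isolated_pos (hn : 2 ≤ n) (ht : ν {true} ≠ 0) (hf : ν {false} ≠ 0) :
    ∃ c : Letter d n × Letter d n,
      prodM (Letter d n) ν {ω | KeepP c ω ∧ IsoRoot ω} ≠ 0 := by
  classical
  let a0 : Letter d n := fun _ => ⟨0, by omega⟩
  let a1 : Letter d n := fun _ => ⟨1, by omega⟩
  let P0 : List (Letter d n) × Letter d n → Bool := fun x =>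
    if x.1 = [] then decide (x.2 = a0) else decide (x.2 = a1)
  let s0 : Finset (List (Letter d n) × Letter d n) :=
    (Finset.univ.image fun a : Letter d n => (([], a) : List (Letter d n) × Letter d n)) ∪
    (Finset.univ.image fun a : Letter d n => (([a0], a) : List (Letter d n) × Letter d n))
  refine ⟨(a0, a1), ?_⟩
  have h := Measure.infinitePi_pi (μ := fun _ : List (Letter d n) × Letter d n => ν)
    (s := s0) (t := fun x => {P0 x}) (fun _ _ => MeasurableSet.of_discrete)
  have hne : ∏ x ∈ s0, ν {P0 x} ≠ 0 := by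
    rw [Finset.prod_ne_zero_iff]
    intro x _
    cases P0 x
    · exact hf
    · exact ht
  rw [← h] at hne
  have hsub : Set.pi (s0 : Set (List (Letter d n) × Letter d n)) (fun x => {P0 x}) ⊆
      {ω | KeepP (a0, a1) ω ∧ IsoRoot ω} := by
    intro ω hω
    have e1 : ∀ a, ω ([], a) = decide (a = a0) := by
      intro a
      have := hω ([], a) (by simp [s0])
      simpa [P0] using this
    have e2 : ∀ a, ω ([a0], a) = decide (a = a1) := by
      intro a
      have := hω ([a0], a) (by simp [s0])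
      simpa [P0] using this
    refine ⟨⟨by rw [e1]; simp, by rw [e2]; simp⟩, ?_⟩
    rw [isoRoot_iff]
    rintro ⟨b0, b1⟩ ⟨hb0, hb1⟩ i
    simp only at hb0 hb1
    rw [e1] at hb0
    have hb0' : b0 = a0 := by simpa using hb0
    subst hb0'
    rw [e2] at hb1
    have hb1' : b1 = a1 := by simpa using hb1
    subst hb1'
    have hval : dig2 (a0, a1) i = 1 := by simp [dig2, digit, a0, a1]
    rw [hval]
    refine ⟨le_rfl, ?_⟩
    nlinarith
  intro h0
  exact hne (measure_mono_null hsub h0)

lemma pow_rpow_comm {y : ℝ} (hy : 0 ≤ y) (l : ℕ) (s : ℝ) : (y ^ l) ^ s = (y ^ s) ^ l := by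
  rw [← Real.rpow_natCast y l, ← Real.rpow_mul hy, mul_comm, Real.rpow_mul hy,
    Real.rpow_natCast]

/-- The main theorem on the canonical space. -/
theorem main_canonical (hd : 1 ≤ d) (hn : 2 ≤ n) {p : ℝ} (hp : ((n : ℝ) ^ d)⁻¹ < p)
    (hp1 : p < 1) (hν : ν {true} = ENNReal.ofReal p) :
    prodM (Letter d n) ν {ω | Surv ω} ≠ 0 ∧
    ∃ c c' : ℝ, c < c' ∧ c' < d + Real.log p / Real.log n ∧
    ∀ᵐ ω ∂(prodM (Letter d n) ν), (perc d n ω).Nonempty →
      conformalUpperBoxDim (perc d n ω) ≤ c ∧ (c' : EReal) ≤ upperBoxDim (perc d n ω) := by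
  classical
  have hn' : (2 : ℝ) ≤ n := by exact_mod_cast hn
  have hn0 : (0 : ℝ) < n := by linarith
  have hnd : 0 < (n : ℝ) ^ d := by positivity
  have hp0 : 0 < p := lt_trans (inv_pos.2 hnd) hp
  have hlogn : 0 < Real.log n := Real.log_pos (by linarith)
  have hcardA : Fintype.card (Letter d n) = n ^ d := by simp
  have hcard : 2 ≤ Fintype.card (Letter d n) := by
    rw [hcardA]
    calc 2 ≤ n := hn
      _ = n ^ 1 := (pow_one n).symm
      _ ≤ n ^ d := Nat.pow_le_pow_right (by omega) hd
  -- the mean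
  set Mr : ℝ := (n : ℝ) ^ d * p with hMr
  have hMr1 : 1 < Mr := by
    rw [hMr]
    calc 1 = (n : ℝ) ^ d * ((n : ℝ) ^ d)⁻¹ := (mul_inv_cancel₀ hnd.ne').symm
      _ < (n : ℝ) ^ d * p := by gcongr
  have hMr0 : 0 < Mr := by linarith
  have hMeq : (Fintype.card (Letter d n) * ν {true} : ℝ≥0∞) = ENNReal.ofReal Mr := by
    rw [hcardA, hν, hMr, ENNReal.ofReal_mul (by positivity)]
    congr 1
    rw [ENNReal.ofReal_pow (by positivity), ENNReal.ofReal_natCast]
    push_cast
    rfl
  have hM : 1 < (Fintype.card (Letter d n) * ν {true} : ℝ≥0∞) := by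
    rw [hMeq, ← ENNReal.ofReal_one]
    exact (ENNReal.ofReal_lt_ofReal_iff hMr0).2 hMr1
  -- probabilities of the two symbols
  have ht : ν {true} ≠ 0 := by rw [hν]; simpa using hp0
  have hf : ν {false} ≠ 0 := by
    intro h0
    have h1 : ν (Set.univ : Set Bool) = 1 := measure_univ
    have h2 : (Set.univ : Set Bool) = {false} ∪ {true} := by ext x; cases x <;> simp
    rw [h2] at h1
    have h3 := measure_union_le (μ := ν) ({false} : Set Bool) {true}
    rw [h1, h0, zero_add, hν] at h3
    have h4 : ENNReal.ofReal p < 1 := by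
      rw [← ENNReal.ofReal_one]
      exact (ENNReal.ofReal_lt_ofReal_iff one_pos).2 hp1
    exact absurd h3 (not_le.2 h4)
  -- the two sums
  set α : ℝ≥0∞ := ∑ c : Letter d n × Letter d n,
    prodM (Letter d n) ν {ω | KeepP c ω ∧ ¬ IsoRoot ω} with hα
  set β : ℝ≥0∞ := ∑ c : Letter d n × Letter d n,
    prodM (Letter d n) ν {ω | KeepP c ω ∧ IsoRoot ω} with hβ
  have hαt : α ≠ ∞ := (ENNReal.sum_lt_top.2 fun c _ => measure_lt_top _ _).ne
  have hβt : β ≠ ∞ := (ENNReal.sum_lt_top.2 fun c _ => measure_lt_top _ _).ne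
  have hβ0 : β ≠ 0 := by
    obtain ⟨c, hc⟩ := exists_isolated_pos (d := d) ν hn ht hf
    intro h0
    rw [hβ, Finset.sum_eq_zero_iff] at h0
    exact hc (h0 c (Finset.mem_univ c))
  have hαβ : α + β = ENNReal.ofReal Mr ^ 2 := by
    rw [hα, hβ, ← Finset.sum_add_distrib]
    have h1 : ∀ c : Letter d n × Letter d n,
        prodM (Letter d n) ν {ω | KeepP c ω ∧ ¬ IsoRoot ω} +
        prodM (Letter d n) ν {ω | KeepP c ω ∧ IsoRoot ω} = ν {true} ^ 2 := by
      intro c
      rw [← lintegral_keepP ν c]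
      have hi : MeasurableSet {ω : List (Letter d n) × Letter d n → Bool | IsoRoot ω} :=
        mS_le _ _ measurableSet_isoRoot
      rw [add_comm]
      exact measure_inter_add_sdiff {ω | KeepP c ω} hi
    simp_rw [h1]
    rw [Finset.sum_const, Finset.card_univ, Fintype.card_prod, nsmul_eq_mul, ← hMeq]
    push_cast
    ring
  set a := α.toReal with ha
  set b := β.toReal with hb
  have hb0 : 0 < b := ENNReal.toReal_pos hβ0 hβt
  have ha0 : 0 ≤ a := ENNReal.toReal_nonneg
  have hab : a + b = Mr ^ 2 := by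
    have := congrArg ENNReal.toReal hαβ
    rw [ENNReal.toReal_add hαt hβt, ENNReal.toReal_pow, ENNReal.toReal_ofReal hMr0.le] at this
    exact this
  -- choice of x
  obtain ⟨x, hx1, hx2, hx3⟩ : ∃ x : ℝ, (Mr ^ 2)⁻¹ < x ∧ x < 1 ∧ x * a + x ^ 2 * b < 1 := by
    have hMr2 : 1 < Mr ^ 2 := by nlinarith
    set y := (Mr ^ 2)⁻¹ with hy
    have hy0 : 0 < y := by positivity
    have hy1 : y < 1 := by rw [hy, inv_lt_one₀ (by linarith)]; exact hMr2
    have hyM : y * Mr ^ 2 = 1 := inv_mul_cancel₀ (by positivity)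
    have hfy : y * a + y ^ 2 * b < 1 := by
      have : y * a + y ^ 2 * b = 1 - y * b * (1 - y) := by
        have e : a = Mr ^ 2 - b := by linarith
        rw [e]
        linear_combination hyM
      rw [this]
      have : 0 < y * b * (1 - y) := by
        have : 0 < 1 - y := by linarith
        positivity
      linarith
    have hcont : Continuous (fun x : ℝ => x * a + x ^ 2 * b) := by fun_prop
    have h1 : ∀ᶠ x in 𝓝 y, x * a + x ^ 2 * b < 1 := hcont.continuousAt.eventually_lt
      continuousAt_const hfy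
    have h2 : ∀ᶠ x in 𝓝 y, x < 1 := eventually_lt_nhds hy1
    have h3 : ∀ᶠ x in 𝓝[>] y, (x * a + x ^ 2 * b < 1 ∧ x < 1) ∧ y < x :=
      ((h1.and h2).filter_mono nhdsWithin_le_nhds).and self_mem_nhdsWithin
    obtain ⟨x, ⟨hx1, hx2⟩, hx3⟩ := h3.exists
    exact ⟨x, hx3, hx2, hx1⟩
  have hx0 : 0 < x := lt_trans (by positivity) hx1
  have hlogx : Real.log x < 0 := Real.log_neg hx0 hx2
  -- the exponents
  set s : ℝ := -Real.log x / (2 * Real.log n) with hs
  set D : ℝ := d + Real.log p / Real.log n with hD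
  have hs0 : 0 < s := by
    rw [hs]; apply div_pos <;> linarith
  have hDM : D * Real.log n = Real.log Mr := by
    rw [hD, hMr, Real.log_mul hnd.ne' hp0.ne', Real.log_pow]
    field_simp
  have hsD : s < D := by
    have h1 : s * Real.log n = -Real.log x / 2 := by rw [hs]; field_simp
    have h2 : -Real.log x < 2 * Real.log Mr := by
      have := Real.log_lt_log (by positivity) hx1
      rw [Real.log_inv, Real.log_pow] at this
      push_cast at this
      linarith
    have h3 : s * Real.log n < D * Real.log n := by rw [h1, hDM]; linarith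
    exact lt_of_mul_lt_mul_right h3 hlogn.le
  set s' := (s + D) / 2 with hs'
  have hss' : s < s' := by rw [hs']; linarith
  have hs'D : s' < D := by rw [hs']; linarith
  -- survival
  have hSpos : prodM (Letter d n) ν {ω | Surv ω} ≠ 0 := by
    intro h0
    have h1 : ∀ᵐ ω ∂(prodM (Letter d n) ν), ¬ Surv ω := by
      rw [ae_iff]; simpa using h0
    have h2 : ∫⁻ _ω, (1 : ℝ≥0∞) ∂(prodM (Letter d n) ν) = 0 := by
      refine lintegral_eq_zero_of_tendsto ν (G := fun _ => 1) measurable_const
        (fun _ => le_rfl) hM ?_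
      filter_upwards [h1] with ω hω
      unfold Surv at hω
      push Not at hω
      obtain ⟨k₀, hk₀⟩ := hω
      refine tendsto_atTop_of_eventually_const (i₀ := k₀) (fun k hk => ?_)
      have : TT (fun _ => (1 : ℝ≥0∞)) k ω = 0 := by
        unfold TT levelSum
        apply Finset.sum_eq_zero
        intro w _
        refine if_neg (fun hw => hk₀ ((List.ofFn w).take k₀) ?_ (hw.take k₀))
        rw [List.length_take, List.length_ofFn]
        omega
      rw [this, ENNReal.zero_div]
    simp at h2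
  refine ⟨hSpos, s, s', hss', hs'D, ?_⟩
  -- the mean weight is less than one
  have hmean : ∑ c : Letter d n × Letter d n,
      ∫⁻ ω, XX (ENNReal.ofReal x) c ω ∂(prodM (Letter d n) ν) < 1 := by
    simp_rw [lintegral_XX ν]
    rw [Finset.sum_add_distrib, ← Finset.mul_sum, ← Finset.mul_sum, ← hα, ← hβ,
      ← ENNReal.ofReal_toReal hαt, ← ENNReal.ofReal_toReal hβt, ← ha, ← hb,
      ← ENNReal.ofReal_pow hx0.le, ← ENNReal.ofReal_mul hx0.le,
      ← ENNReal.ofReal_mul (by positivity), ← ENNReal.ofReal_add (by positivity) (by positivity),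
      ← ENNReal.ofReal_one]
    exact (ENNReal.ofReal_lt_ofReal_iff one_pos).2 hx3
  have hae1 := ae_tsum_lt_top ν (ENNReal.ofReal x) hmean
  have hbM : ENNReal.ofReal ((n : ℝ) ^ s') < Fintype.card (Letter d n) * ν {true} := by
    rw [hMeq]
    refine (ENNReal.ofReal_lt_ofReal_iff hMr0).2 ?_
    rw [← Real.log_lt_log_iff (by positivity) hMr0, Real.log_rpow hn0, ← hDM]
    exact mul_lt_mul_of_pos_right hs'D hlogn
  have hae2 := ae_not_slow ν hcard hM hbM
  filter_upwards [hae1, hae2] with ω h1 h2 hne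
  constructor
  · -- upper bound
    refine conformal_le (m := n * n) (dig := dig2) (K := K2 ω) (by nlinarith) dig2_lt
      dig2_injective (K2_prefix ω) (perc_subset_limit (by omega) ω) hs0 ?_
    have hnn : (0 : ℝ) < ((n * n : ℕ) : ℝ) := by exact_mod_cast (by nlinarith : 0 < n * n)
    have hxs : (((n * n : ℕ) : ℝ)⁻¹) ^ s = x := by
      rw [Real.inv_rpow hnn.le, ← Real.rpow_neg hnn.le, Real.rpow_def_of_pos hnn]
      have : Real.log ((n * n : ℕ) : ℝ) * -s = Real.log x := by
        push_cast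
        rw [Real.log_mul hn0.ne' hn0.ne', hs]
        field_simp
        ring
      rw [this, Real.exp_log hx0]
    have hwt : ∀ v, ENNReal.ofReal (wt (n * n) dig2 (K2 ω) v ^ s) =
        ENNReal.ofReal x ^ (v.length + rank (n * n) dig2 (K2 ω) v) := by
      intro v
      unfold wt
      rw [← ENNReal.ofReal_pow hx0.le]
      congr 1
      rw [pow_rpow_comm (by positivity), hxs]
    have heq : ∑' v : List (Letter d n × Letter d n),
        (if v ∈ K2 ω then ENNReal.ofReal (wt (n * n) dig2 (K2 ω) v ^ s) else 0) =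
        ∑' k, SS (ENNReal.ofReal x) k ω := by
      simp_rw [hwt]
      rw [tsum_eq_levelSum]
      rfl
    rw [heq]
    exact h1.ne
  · -- lower bound
    have hsurv : Surv ω := by
      obtain ⟨x, hx⟩ := hne
      intro k
      rw [mem_perc_iff] at hx
      obtain ⟨w, hw1, hw2, -⟩ := hx k
      exact ⟨w, hw2, hw1⟩
    exact le_upperBoxDim hn (h2 hsurv)

end

lemma bool_measure_ext {μ ν : Measure Bool} [IsProbabilityMeasure μ] [IsProbabilityMeasure ν]
    (h : μ {true} = ν {true}) : μ = ν := by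
  have key : ∀ (ρ : Measure Bool) [IsProbabilityMeasure ρ], ρ {false} = 1 - ρ {true} := by
    intro ρ _
    have h1 : ({false} : Set Bool) = {true}ᶜ := by ext x; cases x <;> simp
    rw [h1, prob_compl_eq_one_sub MeasurableSet.of_discrete]
  refine Measure.ext_of_singleton (fun b => ?_)
  cases b
  · rw [key μ, key ν, h]
  · exact h

/-- The main theorem for an arbitrary family of independent retention decisions. -/
theorem main (d n : ℕ) (hd : 1 ≤ d) (hn : 2 ≤ n) (p : ℝ) (hp : ((n : ℝ) ^ d)⁻¹ < p)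
    (hp1 : p < 1) {Ω : Type*} [MeasurableSpace Ω] (P : Measure Ω) [IsProbabilityMeasure P]
    (ξ : List (Letter d n) × Letter d n → Ω → Bool) (hmeas : ∀ i, Measurable (ξ i))
    (hindep : iIndepFun ξ P) (hlaw : ∀ i, P {ω | ξ i ω = true} = ENNReal.ofReal p) :
    P {ω | (perc d n (fun i => ξ i ω)).Nonempty} ≠ 0 ∧
    ∃ c : ℝ, c < d + Real.log p / Real.log n ∧
    ∀ᵐ ω ∂P, (perc d n (fun i => ξ i ω)).Nonempty →
      conformalUpperBoxDim (perc d n (fun i => ξ i ω)) ≤ c ∧
      (c : EReal) < upperBoxDim (perc d n (fun i => ξ i ω)) := by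
  classical
  have hn0 : 0 < n := by omega
  let i0 : List (Letter d n) × Letter d n := ([], fun _ => ⟨0, hn0⟩)
  have hprob : ∀ i, IsProbabilityMeasure (P.map (ξ i)) := fun i =>
    Measure.isProbabilityMeasure_map (hmeas i).aemeasurable
  let ν : Measure Bool := P.map (ξ i0)
  have hνp : IsProbabilityMeasure ν := hprob i0
  have hval : ∀ i, P.map (ξ i) {true} = ENNReal.ofReal p := by
    intro i
    rw [Measure.map_apply (hmeas i) MeasurableSet.of_discrete, ← hlaw i]
    rfl
  have hall : ∀ i, P.map (ξ i) = ν := fun i => bool_measure_ext (by rw [hval i, hval i0])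
  have hmap : P.map (fun ω i => ξ i ω) = prodM (Letter d n) ν := by
    rw [iIndepFun.map_fun_eq_infinitePi_map hmeas hindep]
    unfold prodM
    congr 1
    ext1 i
    exact hall i
  have hm : Measurable (fun ω i => ξ i ω) := measurable_pi_iff.2 hmeas
  obtain ⟨h1, c, c', hcc, hc', h2⟩ := main_canonical ν hd hn hp hp1 (hval i0)
  refine ⟨?_, c, hcc.trans hc', ?_⟩
  · intro h0
    apply h1
    rw [← hmap, Measure.map_apply hm measurableSet_surv]
    refine measure_mono_null ?_ h0
    intro ω hω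
    obtain ⟨y, hy⟩ := limit_nonempty hn (show Surv (fun i => ξ i ω) from hω)
    exact ⟨WithLp.toLp 2 y, (mem_perc_iff _ _).2 hy⟩
  · rw [← hmap] at h2
    filter_upwards [ae_of_ae_map hm.aemeasurable h2] with ω hω hne
    obtain ⟨h3, h4⟩ := hω hne
    refine ⟨h3, lt_of_lt_of_le ?_ h4⟩
    exact_mod_cast hcc

end Q169.MP
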