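import Pool.Agent.Q169.MP.Geom

/-!
The new metric on the limit set of a tree: points are sent to the sequence of centres of the
isolated cubes containing them, with geometric weights.
-/

namespace Q169.MP

open Set

section Proj

variable {B : Type*} {d : ℕ} (m : ℕ) (dig : B → Fin d → ℕ) (K : Set (List B))

/-- centre of the cube coded by a word -/
noncomputable def center (v : List B) : Fin d → ℝ :=
  fun i => corner m dig v i + (m : ℝ)⁻¹ ^ v.length / 2

open Classical in
/-- The `k`-th projection: the centre of the isolated cube of rank `k` around the point, or the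
point itself. -/
noncomputable def proj (k : ℕ) (x : Fin d → ℝ) : Fin d → ℝ :=
  if h : ∃ v, Isolated m dig K v ∧ rank m dig K v = k ∧ x ∈ inner m dig v then
    center m dig h.choose else x

variable {m dig K}

variable (hm : 2 ≤ m) (hdig : ∀ b i, dig b i < m) (hinj : Function.Injective dig)

include hm hdig hinj in
lemma proj_eq {k : ℕ} {x : Fin d → ℝ} {v : List B} (hv : Isolated m dig K v)
    (hr : rank m dig K v = k) (hx : x ∈ inner m dig v) : proj m dig K k x = center m dig v := by
  have h : ∃ v, Isolated m dig K v ∧ rank m dig K v = k ∧ x ∈ inner m dig v := ⟨v, hv, hr, hx⟩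
  unfold proj
  rw [dif_pos h]
  have hs := h.choose_spec
  rw [isolated_unique hm hdig hinj hs.1 hv (hs.2.1.trans hr.symm) hs.2.2 hx]

lemma proj_eq_self {k : ℕ} {x : Fin d → ℝ}
    (h : ¬ ∃ v, Isolated m dig K v ∧ rank m dig K v = k ∧ x ∈ inner m dig v) :
    proj m dig K k x = x := by
  unfold proj
  rw [dif_neg h]

include hm hdig hinj in
lemma Common.proj_eq {k : ℕ} {x y : Fin d → ℝ} (h : Common m dig K k x y) :
    proj m dig K k x = proj m dig K k y := by
  obtain ⟨v, hv, hr, hx, hy⟩ := h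
  rw [Q169.MP.proj_eq hm hdig hinj hv hr hx, Q169.MP.proj_eq hm hdig hinj hv hr hy]

/-- distance of an inner point to the centre -/
lemma dist_center_inner {v : List B} {x : Fin d → ℝ} (hx : x ∈ inner m dig v)
    (hd : Nonempty (Fin d)) :
    dist x (center m dig v) ≤ (m : ℝ)⁻¹ ^ v.length / 2 - (m : ℝ)⁻¹ ^ (v.length + 1) := by
  have hnn : 0 ≤ (m : ℝ)⁻¹ ^ v.length / 2 - (m : ℝ)⁻¹ ^ (v.length + 1) := by
    obtain ⟨i⟩ := hd
    linarith [(hx i).1, (hx i).2]
  rw [dist_pi_le_iff hnn]
  intro i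
  rw [Real.dist_eq, abs_le]
  unfold center
  constructor
  · linarith [(hx i).1]
  · linarith [(hx i).2]

lemma pow_succ_eq (hm : 2 ≤ m) (l : ℕ) : (m : ℝ)⁻¹ ^ l = m * (m : ℝ)⁻¹ ^ (l + 1) := by
  have hm' : (0 : ℝ) < m := by exact_mod_cast (by omega : 0 < m)
  rw [pow_succ]; field_simp

/-- main comparison: two points in inner cubes of two different isolated words of equal rank -/
lemma est_two (hm : 2 ≤ m) (hdig : ∀ b i, dig b i < m) (hinj : Function.Injective dig)
    {v w : List B} (hv : Isolated m dig K v) (hw : Isolated m dig K w)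
    (hr : rank m dig K v = rank m dig K w) (hne : v ≠ w) {x y : Fin d → ℝ}
    (hx : x ∈ inner m dig v) (hy : y ∈ inner m dig w) :
    dist (center m dig v) (center m dig w) ≤ m * dist x y ∧
    dist x y ≤ 2 * dist (center m dig v) (center m dig w) := by
  have h1 : ¬ v <+: w := fun h => by
    have := rank_lt h hne hv
    omega
  have h2 : ¬ w <+: v := fun h => by
    have := rank_lt h (Ne.symm hne) hw
    omega
  obtain ⟨i, hi⟩ := exists_sep (m := m) (dig := dig) (by omega) hdig hinj v w h1 h2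
  have hd : Nonempty (Fin d) := ⟨i⟩
  have hcx := dist_center_inner hx hd
  have hcy := dist_center_inner hy hd
  set sv := (m : ℝ)⁻¹ ^ (v.length + 1) with hsv
  set sw := (m : ℝ)⁻¹ ^ (w.length + 1) with hsw
  have ev : (m : ℝ)⁻¹ ^ v.length = m * sv := pow_succ_eq hm _
  have ew : (m : ℝ)⁻¹ ^ w.length = m * sw := pow_succ_eq hm _
  have hm' : (2 : ℝ) ≤ m := by exact_mod_cast hm
  have hsv0 : 0 < sv := by positivity
  have hsw0 : 0 < sw := by positivity
  have hxy : sv + sw ≤ dist x y := by
    refine le_trans ?_ (dist_le_pi_dist x y i)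
    rw [Real.dist_eq]
    rcases hi with hi | hi
    · have := neg_abs_le (x i - y i)
      linarith [(hx i).2, (hy i).1]
    · have := le_abs_self (x i - y i)
      linarith [(hx i).1, (hy i).2]
  have hcc : (m * sv + m * sw) / 2 ≤ dist (center m dig v) (center m dig w) := by
    refine le_trans ?_ (dist_le_pi_dist _ _ i)
    rw [Real.dist_eq]
    unfold center
    rcases hi with hi | hi
    · have := neg_abs_le ((corner m dig v i + (m : ℝ)⁻¹ ^ v.length / 2) -
        (corner m dig w i + (m : ℝ)⁻¹ ^ w.length / 2))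
      linarith
    · have := le_abs_self ((corner m dig v i + (m : ℝ)⁻¹ ^ v.length / 2) -
        (corner m dig w i + (m : ℝ)⁻¹ ^ w.length / 2))
      linarith
  have t1 : dist (center m dig v) (center m dig w) ≤
      dist x (center m dig v) + dist x y + dist y (center m dig w) := by
    calc _ ≤ dist (center m dig v) x + dist x y + dist y (center m dig w) := dist_triangle4 _ _ _ _
      _ = _ := by rw [dist_comm (center m dig v) x]
  have t2 : dist x y ≤ dist x (center m dig v) + dist (center m dig v) (center m dig w) +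
      dist y (center m dig w) := by
    calc _ ≤ dist x (center m dig v) + dist (center m dig v) (center m dig w) +
        dist (center m dig w) y := dist_triangle4 _ _ _ _
      _ = _ := by rw [dist_comm (center m dig w) y]
  rw [ev] at hcx
  rw [ew] at hcy
  constructor
  · nlinarith
  · nlinarith

lemma est_one (hm : 2 ≤ m) (hdig : ∀ b i, dig b i < m) (hinj : Function.Injective dig)
    {v : List B} (hv : Isolated m dig K v) {x y : Fin d → ℝ}
    (hx : x ∈ inner m dig v) (hy : y ∉ inner m dig v) (hyK : y ∈ limit m dig K) :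
    (m : ℝ)⁻¹ ^ (v.length + 1) ≤ dist x y ∧
    dist (center m dig v) y ≤ m * dist x y ∧
    dist x y ≤ 2 * dist (center m dig v) y := by
  have h1 : ¬ ∀ i, corner m dig v i < y i ∧ y i < corner m dig v i + (m : ℝ)⁻¹ ^ v.length :=
    fun h => hy (limit_inner hm hdig hinj hv hyK h)
  push Not at h1
  obtain ⟨i, hi⟩ := h1
  have hi' : y i ≤ corner m dig v i ∨ corner m dig v i + (m : ℝ)⁻¹ ^ v.length ≤ y i := by
    rcases le_or_gt (y i) (corner m dig v i) with h | h
    · left; exact h
    · right; exact hi h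
  have hd : Nonempty (Fin d) := ⟨i⟩
  have hcx := dist_center_inner hx hd
  set sv := (m : ℝ)⁻¹ ^ (v.length + 1) with hsv
  have ev : (m : ℝ)⁻¹ ^ v.length = m * sv := pow_succ_eq hm _
  have hm' : (2 : ℝ) ≤ m := by exact_mod_cast hm
  have hsv0 : 0 < sv := by positivity
  have hxy : sv ≤ dist x y := by
    refine le_trans ?_ (dist_le_pi_dist x y i)
    rw [Real.dist_eq]
    rcases hi' with hi | hi
    · have := le_abs_self (x i - y i)
      linarith [(hx i).1]
    · have := neg_abs_le (x i - y i)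
      linarith [(hx i).2]
  have hcc : m * sv / 2 ≤ dist (center m dig v) y := by
    refine le_trans ?_ (dist_le_pi_dist _ _ i)
    rw [Real.dist_eq]
    unfold center
    rcases hi' with hi | hi
    · have := le_abs_self ((corner m dig v i + (m : ℝ)⁻¹ ^ v.length / 2) - y i)
      linarith
    · have := neg_abs_le ((corner m dig v i + (m : ℝ)⁻¹ ^ v.length / 2) - y i)
      linarith
  have t1 : dist (center m dig v) y ≤ dist x (center m dig v) + dist x y := by
    rw [dist_comm x (center m dig v)]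
    exact dist_triangle _ _ _
  have t2 : dist x y ≤ dist x (center m dig v) + dist (center m dig v) y := dist_triangle _ _ _
  rw [ev] at hcx
  refine ⟨hxy, ?_, ?_⟩
  · nlinarith
  · nlinarith

/-- Two-sided comparison of the `k`-th projections of points without a common isolated word of
rank `k`. -/
lemma proj_est (hm : 2 ≤ m) (hdig : ∀ b i, dig b i < m) (hinj : Function.Injective dig)
    {k : ℕ} {x y : Fin d → ℝ} (hxK : x ∈ limit m dig K) (hyK : y ∈ limit m dig K)
    (h : ¬ Common m dig K k x y) :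
    dist (proj m dig K k x) (proj m dig K k y) ≤ m * dist x y ∧
    dist x y ≤ 2 * dist (proj m dig K k x) (proj m dig K k y) := by
  have hm' : (2 : ℝ) ≤ m := by exact_mod_cast hm
  by_cases hx : ∃ v, Isolated m dig K v ∧ rank m dig K v = k ∧ x ∈ inner m dig v
  · obtain ⟨v, hv, hvr, hxv⟩ := hx
    rw [proj_eq hm hdig hinj hv hvr hxv]
    by_cases hy : ∃ v, Isolated m dig K v ∧ rank m dig K v = k ∧ y ∈ inner m dig v
    · obtain ⟨w, hw, hwr, hyw⟩ := hy
      rw [proj_eq hm hdig hinj hw hwr hyw]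
      refine est_two hm hdig hinj hv hw (hvr.trans hwr.symm) ?_ hxv hyw
      rintro rfl
      exact h ⟨v, hv, hvr, hxv, hyw⟩
    · rw [proj_eq_self hy]
      have hyv : y ∉ inner m dig v := fun h' => hy ⟨v, hv, hvr, h'⟩
      exact (est_one hm hdig hinj hv hxv hyv hyK).2
  · rw [proj_eq_self hx]
    by_cases hy : ∃ v, Isolated m dig K v ∧ rank m dig K v = k ∧ y ∈ inner m dig v
    · obtain ⟨w, hw, hwr, hyw⟩ := hy
      rw [proj_eq hm hdig hinj hw hwr hyw]
      have hxv : x ∉ inner m dig w := fun h' => hx ⟨w, hw, hwr, h'⟩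
      have := (est_one hm hdig hinj hw hyw hxv hxK).2
      rw [dist_comm x y, dist_comm x (center m dig w)]
      exact this
    · rw [proj_eq_self hy]
      have := dist_nonneg (x := x) (y := y)
      constructor <;> nlinarith

include hm hdig in
lemma limit_subset_cube {x : Fin d → ℝ} (hx : x ∈ limit m dig K) (i : Fin d) :
    0 ≤ x i ∧ x i ≤ 1 := by
  obtain ⟨v, hv, hl, hxv⟩ := hx 0
  have h1 := corner_nonneg (m := m) (dig := dig) (by omega) v i
  have h2 := corner_add_le (m := m) (dig := dig) (by omega) hdig v i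
  exact ⟨by linarith [(hxv i).1], by linarith [(hxv i).2]⟩

include hm hdig in
lemma norm_proj_le {k : ℕ} {x : Fin d → ℝ} (hx : x ∈ limit m dig K) :
    ‖proj m dig K k x‖ ≤ 1 := by
  rw [pi_norm_le_iff_of_nonneg zero_le_one]
  intro i
  rw [Real.norm_eq_abs, abs_le]
  by_cases h : ∃ v, Isolated m dig K v ∧ rank m dig K v = k ∧ x ∈ inner m dig v
  · have e : proj m dig K k x = center m dig h.choose := by
      unfold proj; rw [dif_pos h]
    rw [e]
    unfold center
    have h1 := corner_nonneg (m := m) (dig := dig) (by omega) h.choose i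
    have h2 := corner_add_le (m := m) (dig := dig) (by omega) hdig h.choose i
    have h3 : (0 : ℝ) ≤ (m : ℝ)⁻¹ ^ (h.choose).length := by positivity
    constructor <;> linarith
  · rw [proj_eq_self h]
    have := limit_subset_cube hm hdig hx i
    constructor <;> linarith [this.1, this.2]

include hm hdig in
lemma dist_le_one {x y : Fin d → ℝ} (hx : x ∈ limit m dig K) (hy : y ∈ limit m dig K) :
    dist x y ≤ 1 := by
  rw [dist_pi_le_iff zero_le_one]
  intro i
  have h1 := limit_subset_cube hm hdig hx i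
  have h2 := limit_subset_cube hm hdig hy i
  rw [Real.dist_eq, abs_le]
  constructor <;> linarith [h1.1, h1.2, h2.1, h2.2]

end Proj

section Embed

variable {B : Type*} {d : ℕ} {m : ℕ} {dig : B → Fin d → ℕ} {K : Set (List B)}

/-- The embedding of the limit set into bounded sequences. -/
noncomputable def emb (hm : 2 ≤ m) (hdig : ∀ b i, dig b i < m) (x : limit m dig K) :
    BoundedContinuousFunction ℕ (Fin d → ℝ) :=
  BoundedContinuousFunction.ofNormedAddCommGroupDiscrete
    (fun k => ((m : ℝ)⁻¹ ^ k) • proj m dig K k x.1) 1 (by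
      intro k
      rw [norm_smul, Real.norm_of_nonneg (by positivity)]
      have hm' : (1 : ℝ) ≤ m := by exact_mod_cast (by omega : 1 ≤ m)
      have h1 : (m : ℝ)⁻¹ ^ k ≤ 1 := pow_le_one₀ (by positivity) (inv_le_one_of_one_le₀ hm')
      have h2 := norm_proj_le (k := k) hm hdig x.2
      have h3 : (0 : ℝ) ≤ (m : ℝ)⁻¹ ^ k := by positivity
      nlinarith [norm_nonneg (proj m dig K k x.1)])

lemma emb_apply (hm : 2 ≤ m) (hdig : ∀ b i, dig b i < m) (x : limit m dig K) (k : ℕ) :
    emb hm hdig x k = ((m : ℝ)⁻¹ ^ k) • proj m dig K k x.1 := rfl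

lemma dist_emb_apply (hm : 2 ≤ m) (hdig : ∀ b i, dig b i < m) (x y : limit m dig K) (k : ℕ) :
    dist (emb hm hdig x k) (emb hm hdig y k) =
      (m : ℝ)⁻¹ ^ k * dist (proj m dig K k x.1) (proj m dig K k y.1) := by
  rw [emb_apply, emb_apply, dist_smul₀, Real.norm_of_nonneg (by positivity)]

/-- upper estimate -/
lemma emb_upper (hm : 2 ≤ m) (hdig : ∀ b i, dig b i < m) (hinj : Function.Injective dig)
    (x y : limit m dig K) {N : ℕ} (h : ∀ j < N, Common m dig K j x.1 y.1) :
    dist (emb hm hdig x) (emb hm hdig y) ≤ (m : ℝ)⁻¹ ^ N * (m * dist x.1 y.1) := by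
  rw [BoundedContinuousFunction.dist_le (by positivity)]
  intro k
  rw [dist_emb_apply]
  by_cases hc : Common m dig K k x.1 y.1
  · rw [hc.proj_eq hm hdig hinj, dist_self, mul_zero]
    positivity
  · have hk : N ≤ k := by
      by_contra hcon
      exact hc (h k (by omega))
    have h1 := (proj_est hm hdig hinj x.2 y.2 hc).1
    have hm' : (1 : ℝ) ≤ m := by exact_mod_cast (by omega : 1 ≤ m)
    have h2 : (m : ℝ)⁻¹ ^ k ≤ (m : ℝ)⁻¹ ^ N :=
      pow_le_pow_of_le_one (by positivity) (inv_le_one_of_one_le₀ hm') hk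
    gcongr

/-- lower estimate -/
lemma emb_lower (hm : 2 ≤ m) (hdig : ∀ b i, dig b i < m) (hinj : Function.Injective dig)
    (x y : limit m dig K) {k : ℕ} (h : ¬ Common m dig K k x.1 y.1) :
    (m : ℝ)⁻¹ ^ k * dist x.1 y.1 ≤ 2 * dist (emb hm hdig x) (emb hm hdig y) := by
  have h1 := (proj_est hm hdig hinj x.2 y.2 h).2
  have h2 := BoundedContinuousFunction.dist_coe_le_dist (f := emb hm hdig x)
    (g := emb hm hdig y) k
  rw [dist_emb_apply] at h2
  have h3 : (0 : ℝ) ≤ (m : ℝ)⁻¹ ^ k := by positivity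
  calc (m : ℝ)⁻¹ ^ k * dist x.1 y.1
      ≤ (m : ℝ)⁻¹ ^ k * (2 * dist (proj m dig K k x.1) (proj m dig K k y.1)) := by gcongr
    _ = 2 * ((m : ℝ)⁻¹ ^ k * dist (proj m dig K k x.1) (proj m dig K k y.1)) := by ring
    _ ≤ _ := by gcongr

/-- first rank at which the two points are separated -/
lemma exists_first (hm : 2 ≤ m) {x y : Fin d → ℝ}
    (hne : x ≠ y) : ∃ N, ¬ Common m dig K N x y ∧ ∀ j < N, Common m dig K j x y := by
  classical
  have hex : ∃ N, ¬ Common m dig K N x y := by
    by_contra hcon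
    push Not at hcon
    have h0 : 0 < dist x y := dist_pos.2 hne
    have hm' : (2 : ℝ) ≤ m := by exact_mod_cast hm
    have h1 : (m : ℝ)⁻¹ < 1 := by
      rw [inv_lt_one₀ (by linarith)]
      linarith
    obtain ⟨k, hk⟩ := exists_pow_lt_of_lt_one h0 h1
    have := (hcon k).dist_le hm
    linarith
  refine ⟨Nat.find hex, Nat.find_spec hex, fun j hj => ?_⟩
  have := Nat.find_min hex hj
  push Not at this
  exact this

lemma dist_le_first (hm : 2 ≤ m) (hdig : ∀ b i, dig b i < m) {x y : Fin d → ℝ}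
    (hx : x ∈ limit m dig K) (hy : y ∈ limit m dig K) {N : ℕ}
    (h : ∀ j < N, Common m dig K j x y) : dist x y ≤ m * (m : ℝ)⁻¹ ^ N := by
  have hm' : (2 : ℝ) ≤ m := by exact_mod_cast hm
  cases N with
  | zero =>
    have := dist_le_one hm hdig hx hy
    simp only [pow_zero, mul_one]
    linarith
  | succ n =>
    have := (h n (by omega)).dist_le hm
    rwa [pow_succ_eq hm n] at this

lemma emb_holder (hm : 2 ≤ m) (hdig : ∀ b i, dig b i < m) (hinj : Function.Injective dig)
    (x y : limit m dig K) :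
    dist x.1 y.1 ^ 2 ≤ 2 * m * dist (emb hm hdig x) (emb hm hdig y) := by
  by_cases hne : x.1 = y.1
  · rw [hne, dist_self, zero_pow two_ne_zero]
    positivity
  · obtain ⟨N, h1, h2⟩ := exists_first (m := m) (dig := dig) (K := K) hm hne
    have h3 := emb_lower hm hdig hinj x y h1
    have h4 := dist_le_first hm hdig x.2 y.2 h2
    have h5 : (0 : ℝ) < m := by exact_mod_cast (by omega : 0 < m)
    have h6 := dist_nonneg (x := x.1) (y := y.1)
    calc dist x.1 y.1 ^ 2 = dist x.1 y.1 * dist x.1 y.1 := by ring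
      _ ≤ (m * (m : ℝ)⁻¹ ^ N) * dist x.1 y.1 := by gcongr
      _ = m * ((m : ℝ)⁻¹ ^ N * dist x.1 y.1) := by ring
      _ ≤ m * (2 * dist (emb hm hdig x) (emb hm hdig y)) := by gcongr
      _ = _ := by ring

/-- the quasisymmetry estimate -/
lemma emb_qs (hm : 2 ≤ m) (hdig : ∀ b i, dig b i < m) (hinj : Function.Injective dig)
    (x a b : limit m dig K) {t : ℝ} (ht : 0 ≤ t) (h : dist x.1 a.1 ≤ t * dist x.1 b.1) :
    dist (emb hm hdig x) (emb hm hdig a) ≤
      (2 * m ^ 3 * (t + t ^ 2)) * dist (emb hm hdig x) (emb hm hdig b) := by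
  have hm' : (2 : ℝ) ≤ m := by exact_mod_cast hm
  have hm0 : (0 : ℝ) < m := by linarith
  by_cases hxa : x.1 = a.1
  · have : x = a := Subtype.ext hxa
    subst this
    rw [dist_self]
    positivity
  by_cases hxb : x.1 = b.1
  · rw [hxb] at h
    simp only [dist_self, mul_zero] at h
    exfalso
    have := dist_pos.2 hxa
    rw [hxb] at this
    linarith
  obtain ⟨N, hN1, hN2⟩ := exists_first (m := m) (dig := dig) (K := K) hm hxa
  obtain ⟨M, hM1, hM2⟩ := exists_first (m := m) (dig := dig) (K := K) hm hxb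
  have hup := emb_upper hm hdig hinj x a hN2
  have hlo := emb_lower hm hdig hinj x b hM1
  set D := dist (emb hm hdig x) (emb hm hdig b) with hD
  have hD0 : 0 ≤ D := dist_nonneg
  have hxb0 : 0 < dist x.1 b.1 := dist_pos.2 hxb
  rcases le_or_gt M N with hMN | hMN
  · have h2 : (m : ℝ)⁻¹ ^ N ≤ (m : ℝ)⁻¹ ^ M :=
      pow_le_pow_of_le_one (by positivity) (inv_le_one_of_one_le₀ (by linarith)) hMN
    have h3 : (m : ℝ) ≤ m ^ 3 := by nlinarith [sq_nonneg ((m : ℝ) - 1)]
    calc dist (emb hm hdig x) (emb hm hdig a) ≤ (m : ℝ)⁻¹ ^ N * (m * dist x.1 a.1) := hup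
      _ ≤ (m : ℝ)⁻¹ ^ M * (m * (t * dist x.1 b.1)) := by gcongr
      _ = m * t * ((m : ℝ)⁻¹ ^ M * dist x.1 b.1) := by ring
      _ ≤ m * t * (2 * D) := by gcongr
      _ = (2 * m * t) * D := by ring
      _ ≤ (2 * m ^ 3 * (t + t ^ 2)) * D := by
          apply mul_le_mul_of_nonneg_right _ hD0
          have : 0 ≤ 2 * (m : ℝ) ^ 3 * t ^ 2 := by positivity
          nlinarith
  · -- the word of rank `N` around `x` and `b`
    obtain ⟨v, hv, hvr, hxv, hbv⟩ := hM2 N hMN
    have hav : a.1 ∉ inner m dig v := fun h' => hN1 ⟨v, hv, hvr, hxv, h'⟩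
    have hda := (est_one hm hdig hinj hv hxv hav a.2).1
    obtain ⟨w, hw, hwr, hxw, hbw⟩ := hM2 (M - 1) (by omega)
    have hdb := dist_le_side (inner_subset_cube (by omega) w hxw)
      (inner_subset_cube (by omega) w hbw)
    have hvw : v.length + (M - 1 - N) ≤ w.length := by
      rcases le_total v.length w.length with hl | hl
      · have h1 := comparable hm hdig hinj hxv (inner_subset_cube (by omega) w hxw) hl
        have h2 := rank_prefix_bound (m := m) (dig := dig) (K := K) h1
        omega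
      · have h1 := comparable hm hdig hinj hxw (inner_subset_cube (by omega) v hxv) hl
        have h2 := rank_prefix_bound (m := m) (dig := dig) (K := K) h1
        have h3 : w = v := isolated_unique hm hdig hinj hw hv (by omega) hxw hxv
        subst h3
        omega
    obtain ⟨r, hr⟩ : ∃ r, M = N + 1 + r := ⟨M - N - 1, by omega⟩
    subst hr
    have hvw' : v.length + r ≤ w.length := by omega
    have h1 : dist x.1 b.1 ≤ (m : ℝ)⁻¹ ^ v.length * (m : ℝ)⁻¹ ^ r := by
      rw [← pow_add]
      exact hdb.trans (pow_le_pow_of_le_one (by positivity)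
        (inv_le_one_of_one_le₀ (by linarith)) hvw')
    have h2 : (m : ℝ)⁻¹ ^ v.length ≤ m * (t * dist x.1 b.1) := by
      rw [pow_succ_eq hm]
      gcongr
      exact hda.trans h
    have hpr : (0 : ℝ) < (m : ℝ)⁻¹ ^ r := by positivity
    -- so `m ^ r ≤ m * t`
    have h3 : (m : ℝ) ^ r ≤ m * t := by
      have h4 : dist x.1 b.1 ≤ (m * (t * dist x.1 b.1)) * (m : ℝ)⁻¹ ^ r :=
        h1.trans (by gcongr)
      have h5 : 1 ≤ m * t * (m : ℝ)⁻¹ ^ r := by
        have : dist x.1 b.1 * 1 ≤ dist x.1 b.1 * (m * t * (m : ℝ)⁻¹ ^ r) := by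
          calc _ = dist x.1 b.1 := by ring
            _ ≤ _ := h4
            _ = _ := by ring
        exact le_of_mul_le_mul_left this hxb0
      have h6 : (m : ℝ)⁻¹ ^ r * (m : ℝ) ^ r = 1 := by
        rw [← mul_pow, inv_mul_cancel₀ (by linarith), one_pow]
      have hmr : (0 : ℝ) < (m : ℝ) ^ r := by positivity
      calc (m : ℝ) ^ r = 1 * (m : ℝ) ^ r := by ring
        _ ≤ (m * t * (m : ℝ)⁻¹ ^ r) * (m : ℝ) ^ r := by gcongr
        _ = m * t * ((m : ℝ)⁻¹ ^ r * (m : ℝ) ^ r) := by ring
        _ = m * t := by rw [h6, mul_one]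
    have h7 : (m : ℝ)⁻¹ ^ N = m * m ^ r * (m : ℝ)⁻¹ ^ (N + 1 + r) := by
      rw [pow_add, pow_succ]
      have : (m : ℝ)⁻¹ ^ r * (m : ℝ) ^ r = 1 := by
        rw [← mul_pow, inv_mul_cancel₀ (by linarith), one_pow]
      calc (m : ℝ)⁻¹ ^ N = (m : ℝ)⁻¹ ^ N * (m * (m : ℝ)⁻¹) * ((m : ℝ)⁻¹ ^ r * (m : ℝ) ^ r) := by
            rw [this, mul_inv_cancel₀ (by linarith)]; ring
        _ = _ := by ring
    calc dist (emb hm hdig x) (emb hm hdig a) ≤ (m : ℝ)⁻¹ ^ N * (m * dist x.1 a.1) := hup
      _ ≤ (m : ℝ)⁻¹ ^ N * (m * (t * dist x.1 b.1)) := by gcongr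
      _ = m * m ^ r * (m * t) * ((m : ℝ)⁻¹ ^ (N + 1 + r) * dist x.1 b.1) := by
          rw [h7]; ring
      _ ≤ m * (m * t) * (m * t) * (2 * D) := by gcongr
      _ = (2 * m ^ 3 * t ^ 2) * D := by ring
      _ ≤ (2 * m ^ 3 * (t + t ^ 2)) * D := by
          apply mul_le_mul_of_nonneg_right _ hD0
          have : 0 ≤ 2 * (m : ℝ) ^ 3 * t := by positivity
          nlinarith

/-- diameter of the image of a cube -/
lemma emb_cube (hm : 2 ≤ m) (hdig : ∀ b i, dig b i < m) (hinj : Function.Injective dig)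
    (hK : ∀ u v : List B, u <+: v → v ∈ K → u ∈ K)
    (x y : limit m dig K) {v : List B} (hv : v ∈ K) (hx : x.1 ∈ cube m dig v)
    (hy : y.1 ∈ cube m dig v) :
    dist (emb hm hdig x) (emb hm hdig y) ≤ m * (m : ℝ)⁻¹ ^ (v.length + rank m dig K v) := by
  have h : ∀ j < rank m dig K v, Common m dig K j x.1 y.1 := by
    intro j hj
    obtain ⟨u, hu, hne, hui, hur⟩ := exists_rank_eq (m := m) (dig := dig) (K := K) hj
    have hsub := cube_subset_inner_of_prefix hm hdig hui hK hu hne hv
    exact ⟨u, hui, hur, hsub hx, hsub hy⟩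
  have h1 := emb_upper hm hdig hinj x y h
  have h2 := dist_le_side hx hy
  have hm0 : (0 : ℝ) < m := by exact_mod_cast (by omega : 0 < m)
  calc _ ≤ (m : ℝ)⁻¹ ^ rank m dig K v * (m * dist x.1 y.1) := h1
    _ ≤ (m : ℝ)⁻¹ ^ rank m dig K v * (m * (m : ℝ)⁻¹ ^ v.length) := by gcongr
    _ = _ := by rw [pow_add]; ring

end Embed

end Q169.MP
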