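import Pool.Agent.Q169.MP.Defs

/-!
Basic probability for percolation on the tree of words: the product measure, shifts, independence
of functions of disjoint blocks of coordinates, sums over levels.
-/

namespace Q169.MP

open Set Filter Topology MeasureTheory ProbabilityTheory
open scoped ENNReal NNReal

section Words

variable {A : Type}

/-- The sum of a function over all words of a given length. -/
noncomputable def levelSum [Fintype A] (k : ℕ) (F : List A → ℝ≥0∞) : ℝ≥0∞ :=
  ∑ v : Fin k → A, F (List.ofFn v)

lemma levelSum_zero [Fintype A] (F : List A → ℝ≥0∞) : levelSum 0 F = F [] := by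
  simp [levelSum]

lemma levelSum_succ [Fintype A] (k : ℕ) (F : List A → ℝ≥0∞) :
    levelSum (k + 1) F = ∑ a, levelSum k (fun w => F (a :: w)) := by
  unfold levelSum
  rw [← Fintype.sum_prod_type' (f := fun (a : A) (v : Fin k → A) => F (a :: List.ofFn v))]
  symm
  refine Fintype.sum_equiv (Fin.consEquiv (fun _ : Fin (k + 1) => A)) _ _ ?_
  rintro ⟨a, v⟩
  simp [Fin.consEquiv, List.ofFn_succ]

lemma tsum_eq_levelSum [Fintype A] (F : List A → ℝ≥0∞) : ∑' v : List A, F v = ∑' k, levelSum k F := by
  rw [← (List.equivSigmaTuple (α := A)).symm.tsum_eq, ENNReal.tsum_sigma']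
  congr 1
  ext k
  rw [tsum_fintype]
  rfl

lemma levelSum_mono [Fintype A] {k : ℕ} {F G : List A → ℝ≥0∞} (h : ∀ w, F w ≤ G w) :
    levelSum k F ≤ levelSum k G := Finset.sum_le_sum (fun _ _ => h _)

/-- The configuration seen from the word `w`. -/
def shiftW (w : List A) (ω : List A × A → Bool) : List A × A → Bool := fun x => ω (w ++ x.1, x.2)

lemma shiftW_nil (ω : List A × A → Bool) : shiftW [] ω = ω := rfl

lemma shiftW_cons (a : A) (w : List A) (ω : List A × A → Bool) :
    shiftW (a :: w) ω = shiftW w (shiftW [a] ω) := rfl

lemma kept_nil (ω : List A × A → Bool) : Kept ω [] := by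
  intro u a v h
  simp at h

lemma kept_cons (ω : List A × A → Bool) (a : A) (w : List A) :
    Kept ω (a :: w) ↔ ω ([], a) = true ∧ Kept (shiftW [a] ω) w := by
  constructor
  · intro h
    refine ⟨h [] a w rfl, ?_⟩
    intro u b v hw
    exact h (a :: u) b v (by rw [hw]; rfl)
  · rintro ⟨h1, h2⟩ u b v hw
    cases u with
    | nil =>
      simp only [List.nil_append, List.cons.injEq] at hw
      rw [← hw.1]; exact h1
    | cons c u =>
      simp only [List.cons_append, List.cons.injEq] at hw
      obtain ⟨rfl, hw⟩ := hw
      exact h2 u b v hw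

lemma kept_append (ω : List A × A → Bool) (u w : List A) :
    Kept ω (u ++ w) ↔ Kept ω u ∧ Kept (shiftW u ω) w := by
  induction u generalizing ω with
  | nil => simp [kept_nil, shiftW_nil]
  | cons a u ih =>
    rw [List.cons_append, kept_cons ω a u, kept_cons ω a (u ++ w), ih (shiftW [a] ω),
      shiftW_cons a u ω, and_assoc]

end Words

section Meas

variable {A : Type}

/-- The product measure. -/
noncomputable def prodM (A : Type) (ν : Measure Bool) : Measure (List A × A → Bool) :=
  Measure.infinitePi (fun _ => ν)

instance (ν : Measure Bool) [IsProbabilityMeasure ν] : IsProbabilityMeasure (prodM A ν) := by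
  unfold prodM; infer_instance

/-- The sigma-algebra generated by a set of coordinates. -/
@[instance_reducible] def mS (S : Set (List A × A)) : MeasurableSpace (List A × A → Bool) :=
  ⨆ i ∈ S, MeasurableSpace.comap (fun ω : List A × A → Bool => ω i) inferInstance

lemma mS_le (S : Set (List A × A)) : mS S ≤ MeasurableSpace.pi := by
  refine iSup₂_le fun i _ => ?_
  exact (measurable_pi_apply i).comap_le

lemma indep_mS (ν : Measure Bool) [IsProbabilityMeasure ν] {S T : Set (List A × A)}
    (hST : Disjoint S T) : Indep (mS S) (mS T) (prodM A ν) := by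
  have h : iIndepFun (fun (i : List A × A) (ω : List A × A → Bool) => ω i) (prodM A ν) := by
    unfold prodM
    exact iIndepFun_infinitePi (X := fun _ x => x) (fun _ => measurable_id)
  exact indep_iSup_of_disjoint (fun i => (measurable_pi_apply i).comap_le) h.iIndep hST

lemma lintegral_mul_indep (ν : Measure Bool) [IsProbabilityMeasure ν]
    {S T : Set (List A × A)} (hST : Disjoint S T) {f g : (List A × A → Bool) → ℝ≥0∞}
    (hf : Measurable[mS S] f) (hg : Measurable[mS T] g) :
    ∫⁻ ω, f ω * g ω ∂(prodM A ν) = (∫⁻ ω, f ω ∂(prodM A ν)) * ∫⁻ ω, g ω ∂(prodM A ν) :=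
  lintegral_mul_eq_lintegral_mul_lintegral_of_independent_measurableSpace (mS_le S) (mS_le T)
    (indep_mS ν hST) hf hg

lemma measurable_coord {S : Set (List A × A)} {i : List A × A} (hi : i ∈ S) :
    Measurable[mS S] (fun ω : List A × A → Bool => ω i) := by
  have h : MeasurableSpace.comap (fun ω : List A × A → Bool => ω i) inferInstance ≤ mS S :=
    le_iSup₂_of_le i hi le_rfl
  exact Measurable.of_comap_le h

/-- All coordinates below the word `w`. -/
def below (w : List A) : Set (List A × A) := {x | w <+: x.1}

lemma measurable_shiftW (w : List A) :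
    Measurable[mS (below w)] (shiftW w : (List A × A → Bool) → (List A × A → Bool)) := by
  refine @measurable_pi_iff _ _ _ (mS (below w)) _ _ |>.2 (fun x => ?_)
  exact measurable_coord (show (w ++ x.1, x.2) ∈ below w from List.prefix_append _ _)

lemma measurable_shiftW' (w : List A) :
    Measurable (shiftW w : (List A × A → Bool) → (List A × A → Bool)) := by
  refine measurable_pi_iff.2 (fun x => ?_)
  exact measurable_pi_apply _

lemma measurePreserving_shiftW (ν : Measure Bool) [IsProbabilityMeasure ν] (w : List A) :
    MeasurePreserving (shiftW w) (prodM A ν) (prodM A ν) := by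
  refine ⟨measurable_shiftW' w, ?_⟩
  have hinj : Function.Injective (fun x : List A × A => (w ++ x.1, x.2)) := by
    rintro ⟨u, a⟩ ⟨v, b⟩ h
    simp only [Prod.mk.injEq, List.append_cancel_left_eq] at h
    exact Prod.ext h.1 h.2
  exact Measure.map_infinitePi_infinitePi_of_inj (P := fun _ : List A × A => ν) hinj

lemma lintegral_shiftW (ν : Measure Bool) [IsProbabilityMeasure ν] (w : List A)
    {f : (List A × A → Bool) → ℝ≥0∞} (hf : Measurable f) :
    ∫⁻ ω, f (shiftW w ω) ∂(prodM A ν) = ∫⁻ ω, f ω ∂(prodM A ν) :=
  (measurePreserving_shiftW ν w).lintegral_comp hf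

/-- law of one coordinate -/
lemma measure_coord (ν : Measure Bool) [IsProbabilityMeasure ν] (i : List A × A) (s : Set Bool) :
    prodM A ν {ω | ω i ∈ s} = ν s := by
  have h := measurePreserving_eval_infinitePi (μ := fun _ : List A × A => ν) i
  exact h.measure_preimage (MeasurableSet.of_discrete (s := s)).nullMeasurableSet

lemma lintegral_coord (ν : Measure Bool) [IsProbabilityMeasure ν] (i : List A × A) :
    ∫⁻ ω, (if ω i = true then 1 else 0 : ℝ≥0∞) ∂(prodM A ν) = ν {true} := by
  have h : (fun ω : List A × A → Bool => (if ω i = true then 1 else 0 : ℝ≥0∞)) =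
      ({ω | ω i ∈ ({true} : Set Bool)} : Set (List A × A → Bool)).indicator 1 := by
    ext ω
    simp [Set.indicator_apply]
  rw [h, lintegral_indicator_one, measure_coord]
  exact (measurable_pi_apply i) (MeasurableSet.of_discrete (s := {true}))

lemma measurableSet_kept [Countable A] (w : List A) : MeasurableSet {ω : List A × A → Bool | Kept ω w} := by
  have : {ω : List A × A → Bool | Kept ω w} =
      ⋂ (x : List A × A × List A) (_ : w = x.1 ++ x.2.1 :: x.2.2), {ω | ω (x.1, x.2.1) = true} := by
    ext ω
    simp only [Set.mem_ofPred_eq, Set.mem_iInter, Kept]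
    constructor
    · intro h x hx
      exact h _ _ _ hx
    · intro h u a v hw
      exact h (u, a, v) hw
  rw [this]
  refine MeasurableSet.iInter fun x => MeasurableSet.iInter fun _ => ?_
  have h := (measurable_pi_apply (X := fun _ : List A × A => Bool) (x.1, x.2.1))
    (MeasurableSet.of_discrete (s := ({true} : Set Bool)))
  simpa [Set.preimage] using h

end Meas

end Q169.MP
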