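import Pool.Agent.Q169.MP.Lower

/-!
Survival, slow growth of the number of surviving words, and the fixed point argument.
-/

namespace Q169.MP

open Set Filter Topology MeasureTheory ProbabilityTheory
open scoped ENNReal NNReal

section

variable {A : Type}

/-- The kept tree is infinite. -/
def Surv (ω : List A × A → Bool) : Prop := ∀ k, ∃ w : List A, w.length = k ∧ Kept ω w

lemma Kept.take {ω : List A × A → Bool} {w : List A} (h : Kept ω w) (k : ℕ) :
    Kept ω (w.take k) := by
  have := (kept_append ω (w.take k) (w.drop k)).1 (by rwa [List.take_append_drop])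
  exact this.1

lemma surv_of_kept {ω : List A × A → Bool} {w : List A} (h : Kept ω w)
    (hs : Surv (shiftW w ω)) : Surv ω := by
  intro k
  obtain ⟨v, hv, hkv⟩ := hs k
  refine ⟨(w ++ v).take k, ?_, ((kept_append ω w v).2 ⟨h, hkv⟩).take k⟩
  rw [List.length_take, List.length_append]
  omega

lemma measurableSet_surv [Countable A] : MeasurableSet {ω : List A × A → Bool | Surv ω} := by
  have : {ω : List A × A → Bool | Surv ω} =
      ⋂ k, ⋃ (w : List A) (_ : w.length = k), {ω | Kept ω w} := by
    ext ω
    simp [Surv]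
  rw [this]
  exact MeasurableSet.iInter fun k => MeasurableSet.iUnion fun w => MeasurableSet.iUnion fun _ =>
    measurableSet_kept w

/-- If the tree survives, it survives through some first-level letter. -/
lemma Surv.exists_child [Finite A] {ω : List A × A → Bool} (h : Surv ω) :
    ∃ a, ω ([], a) = true ∧ Surv (shiftW [a] ω) := by
  classical
  have := Fintype.ofFinite A
  by_contra hcon
  push Not at hcon
  have h1 : ∀ a, ∃ k, ω ([], a) = true → ∀ w : List A, w.length = k → ¬ Kept (shiftW [a] ω) w := by
    intro a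
    by_cases ha : ω ([], a) = true
    · have := hcon a ha
      unfold Surv at this
      push Not at this
      obtain ⟨k, hk⟩ := this
      exact ⟨k, fun _ => hk⟩
    · exact ⟨0, fun h => absurd h ha⟩
  choose κ hκ using h1
  obtain ⟨w, hw, hkw⟩ := h (Finset.univ.sup κ + 1)
  cases w with
  | nil => simp at hw
  | cons a w =>
    rw [kept_cons] at hkw
    have hle : κ a ≤ Finset.univ.sup κ := Finset.le_sup (Finset.mem_univ a)
    simp only [List.length_cons, Nat.add_right_cancel_iff] at hw
    refine hκ a hkw.1 (w.take (κ a)) ?_ (hkw.2.take _)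
    rw [List.length_take]
    omega

variable [Fintype A]

open Classical in
/-- The number of level `k` kept words whose subtree survives. -/
noncomputable def NN (k : ℕ) (ω : List A × A → Bool) : ℝ≥0∞ :=
  TT (fun ω => if Surv ω then 1 else 0) k ω

open Classical in
lemma measurable_survInd :
    Measurable (fun ω : List A × A → Bool => if Surv ω then (1 : ℝ≥0∞) else 0) :=
  Measurable.ite measurableSet_surv measurable_const measurable_const

lemma measurable_NN (k : ℕ) : Measurable (NN k : (List A × A → Bool) → ℝ≥0∞) :=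
  measurable_TT measurable_survInd k

/-- slow growth at rate `b` -/
def Slow (b : ℝ≥0∞) (ω : List A × A → Bool) : Prop := ∃ C : ℕ, ∀ k, NN k ω ≤ C * b ^ k

lemma measurableSet_slow (b : ℝ≥0∞) : MeasurableSet {ω : List A × A → Bool | Slow b ω} := by
  have : {ω : List A × A → Bool | Slow b ω} =
      ⋃ C : ℕ, ⋂ k, {ω | NN k ω ≤ C * b ^ k} := by
    ext ω
    simp [Slow]
  rw [this]
  exact MeasurableSet.iUnion fun C => MeasurableSet.iInter fun k =>
    measurableSet_le (measurable_NN k) measurable_const

lemma NN_eq_zero {ω : List A × A → Bool} (h : ¬ Surv ω) (k : ℕ) : NN k ω = 0 := by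
  classical
  unfold NN TT levelSum
  apply Finset.sum_eq_zero
  intro w _
  beta_reduce
  by_cases h1 : Kept ω (List.ofFn w)
  · rw [if_pos h1, if_neg]
    exact fun h2 => h (surv_of_kept h1 h2)
  · rw [if_neg h1]

lemma slow_of_not_surv {b : ℝ≥0∞} {ω : List A × A → Bool} (h : ¬ Surv ω) : Slow b ω :=
  ⟨0, fun k => by rw [NN_eq_zero h]; exact zero_le⟩

/-- slow growth is inherited by the subtrees -/
lemma Slow.child {b : ℝ≥0∞} (hb : b ≠ ∞) {ω : List A × A → Bool} (h : Slow b ω) {a : A}
    (ha : ω ([], a) = true) : Slow b (shiftW [a] ω) := by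
  classical
  obtain ⟨C, hC⟩ := h
  obtain ⟨C', hC'⟩ := ENNReal.exists_nat_gt (ENNReal.mul_ne_top (ENNReal.natCast_ne_top C) hb)
  refine ⟨C', fun k => ?_⟩
  have h1 : NN k (shiftW [a] ω) ≤ NN (k + 1) ω := by
    unfold NN
    rw [TT_succ]
    calc TT (fun ω => if Surv ω then (1 : ℝ≥0∞) else 0) k (shiftW [a] ω)
        = keepInd a ω * TT (fun ω => if Surv ω then (1 : ℝ≥0∞) else 0) k (shiftW [a] ω) := by
          unfold keepInd
          rw [if_pos ha, one_mul]
      _ ≤ _ := Finset.single_le_sum (f := fun a => keepInd a ω *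
          TT (fun ω => if Surv ω then (1 : ℝ≥0∞) else 0) k (shiftW [a] ω))
          (fun _ _ => zero_le) (Finset.mem_univ a)
  calc NN k (shiftW [a] ω) ≤ C * b ^ (k + 1) := h1.trans (hC _)
    _ = (C * b) * b ^ k := by ring
    _ ≤ C' * b ^ k := by gcongr

variable (ν : Measure Bool) [IsProbabilityMeasure ν]

omit [Fintype A] in
/-- independence of the branches -/
lemma lintegral_prod_blocks (h : A → (List A × A → Bool) → ℝ≥0∞)
    (hh : ∀ a, Measurable[mS (block a)] (h a)) (s : Finset A) :
    ∫⁻ ω, ∏ a ∈ s, h a ω ∂(prodM A ν) = ∏ a ∈ s, ∫⁻ ω, h a ω ∂(prodM A ν) := by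
  classical
  induction s using Finset.induction_on with
  | empty => simp
  | insert a s ha ih =>
    simp_rw [Finset.prod_insert ha]
    rw [← ih]
    refine lintegral_mul_indep ν (S := block a) (T := ⋃ b ∈ s, block b) ?_ (hh a) ?_
    · rw [Set.disjoint_iUnion₂_right]
      intro b hb
      exact disjoint_block (fun hab => ha (hab ▸ hb))
    · refine Finset.measurable_fun_prod s fun b hb => ?_
      exact (hh b).mono (mS_mono (Set.subset_biUnion_of_mem (u := fun b => block b) hb)) le_rfl

open Classical in
/-- the indicator attached to a branch: `1` unless the letter is kept and the event fails -/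
noncomputable def brInd (E : (List A × A → Bool) → Prop) (a : A) (ω : List A × A → Bool) :
    ℝ≥0∞ := if ω ([], a) = true then (if E (shiftW [a] ω) then 1 else 0) else 1

omit [Fintype A] in
lemma measurable_brInd {E : (List A × A → Bool) → Prop} (hE : MeasurableSet {ω | E ω}) (a : A) :
    Measurable[mS (block a)] (brInd E a) := by
  classical
  have hEm : Measurable (fun ω : List A × A → Bool => if E ω then (1 : ℝ≥0∞) else 0) :=
    Measurable.ite hE measurable_const measurable_const
  have h1 : Measurable[mS (block a)]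
      (fun ω : List A × A → Bool => if E (shiftW [a] ω) then (1 : ℝ≥0∞) else 0) :=
    measurable_comp_shift [a] (Set.subset_insert _ _) hEm
  have h2 : Measurable[mS (block a)] (fun ω : List A × A → Bool => ω ([], a)) :=
    measurable_coord (by simp [block])
  have h3 : MeasurableSet[mS (block a)] {ω : List A × A → Bool | ω ([], a) = true} := by
    have := h2 (MeasurableSet.of_discrete (s := ({true} : Set Bool)))
    simpa [Set.preimage] using this
  exact @Measurable.ite _ _ _ _ (mS (block a)) _ _ _ h3 h1 measurable_const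

omit [Fintype A] in
lemma lintegral_brInd {E : (List A × A → Bool) → Prop} (hE : MeasurableSet {ω | E ω}) (a : A) :
    ∫⁻ ω, brInd E a ω ∂(prodM A ν) = ν {false} + ν {true} * prodM A ν {ω | E ω} := by
  classical
  have hEm : Measurable (fun ω : List A × A → Bool => if E ω then (1 : ℝ≥0∞) else 0) :=
    Measurable.ite hE measurable_const measurable_const
  have e : ∀ ω : List A × A → Bool, brInd E a ω =
      (if ω ([], a) = false then 1 else 0) +
        keepInd a ω * (if E (shiftW [a] ω) then 1 else 0) := by
    intro ω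
    unfold brInd keepInd
    by_cases h : ω ([], a) = true
    · simp [h]
    · have h' : ω ([], a) = false := by simpa using h
      simp [h']
  simp_rw [e]
  have hm1 : Measurable (fun ω : List A × A → Bool =>
      (if ω ([], a) = false then (1 : ℝ≥0∞) else 0)) := by
    have h2 : Measurable (fun b : Bool => if b = false then (1 : ℝ≥0∞) else 0) :=
      measurable_of_countable _
    exact h2.comp (measurable_pi_apply (([], a) : List A × A))
  rw [lintegral_add_left hm1, lintegral_keep_mul ν a hEm]
  congr 1
  · have h : (fun ω : List A × A → Bool => (if ω ([], a) = false then 1 else 0 : ℝ≥0∞)) =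
        ({ω | ω ([], a) ∈ ({false} : Set Bool)} : Set (List A × A → Bool)).indicator 1 := by
      ext ω
      simp [Set.indicator_apply]
    rw [h, lintegral_indicator_one, measure_coord]
    exact (measurable_pi_apply (([], a) : List A × A)) (MeasurableSet.of_discrete (s := {false}))
  · congr 1
    have h : (fun ω : List A × A → Bool => (if E ω then 1 else 0 : ℝ≥0∞)) =
        ({ω | E ω} : Set (List A × A → Bool)).indicator 1 := by
      ext ω
      simp [Set.indicator_apply]
    rw [h, lintegral_indicator_one hE]

omit [Fintype A] in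
lemma lintegral_ind {E : (List A × A → Bool) → Prop} [DecidablePred E]
    (hE : MeasurableSet {ω | E ω}) :
    ∫⁻ ω, (if E ω then 1 else 0 : ℝ≥0∞) ∂(prodM A ν) = prodM A ν {ω | E ω} := by
  have h : (fun ω : List A × A → Bool => (if E ω then 1 else 0 : ℝ≥0∞)) =
      ({ω | E ω} : Set (List A × A → Bool)).indicator 1 := by
    ext ω
    simp [Set.indicator_apply]
  rw [h, lintegral_indicator_one hE]

/-- inherited events -/
lemma measure_le_of_inherited {E : (List A × A → Bool) → Prop} (hE : MeasurableSet {ω | E ω})
    (h : ∀ ω, E ω → ∀ a, ω ([], a) = true → E (shiftW [a] ω)) :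
    prodM A ν {ω | E ω} ≤
      (ν {false} + ν {true} * prodM A ν {ω | E ω}) ^ Fintype.card A := by
  classical
  calc prodM A ν {ω | E ω} = ∫⁻ ω, (if E ω then 1 else 0 : ℝ≥0∞) ∂(prodM A ν) :=
        (lintegral_ind ν hE).symm
    _ ≤ ∫⁻ ω, ∏ a : A, brInd E a ω ∂(prodM A ν) := by
        apply lintegral_mono
        intro ω
        by_cases hω : E ω
        · simp only [hω, if_true]
          rw [Finset.prod_eq_one]
          intro a _
          unfold brInd
          by_cases ha : ω ([], a) = true
          · rw [if_pos ha, if_pos (h ω hω a ha)]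
          · rw [if_neg ha]
        · simp only [hω, if_false]
          exact zero_le
    _ = _ := by
        rw [lintegral_prod_blocks ν _ (fun a => measurable_brInd hE a)]
        simp_rw [lintegral_brInd ν hE]
        rw [Finset.prod_const, Finset.card_univ]

/-- converse inequality -/
lemma le_measure_of_converse {E : (List A × A → Bool) → Prop} (hE : MeasurableSet {ω | E ω})
    (h : ∀ ω, (∀ a, ω ([], a) = true → E (shiftW [a] ω)) → E ω) :
    (ν {false} + ν {true} * prodM A ν {ω | E ω}) ^ Fintype.card A ≤ prodM A ν {ω | E ω} := by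
  classical
  calc (ν {false} + ν {true} * prodM A ν {ω | E ω}) ^ Fintype.card A
      = ∫⁻ ω, ∏ a : A, brInd E a ω ∂(prodM A ν) := by
        rw [lintegral_prod_blocks ν _ (fun a => measurable_brInd hE a)]
        simp_rw [lintegral_brInd ν hE]
        rw [Finset.prod_const, Finset.card_univ]
    _ ≤ ∫⁻ ω, (if E ω then 1 else 0 : ℝ≥0∞) ∂(prodM A ν) := by
        apply lintegral_mono
        intro ω
        by_cases hω : E ω
        · simp only [hω, if_true]
          apply Finset.prod_le_one
          · intro a _; exact zero_le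
          · intro a _
            unfold brInd
            split_ifs <;> simp
        · simp only [hω, if_false]
          have : ∃ a, ω ([], a) = true ∧ ¬ E (shiftW [a] ω) := by
            by_contra hcon
            push Not at hcon
            exact hω (h ω hcon)
          obtain ⟨a, ha, hEa⟩ := this
          rw [nonpos_iff_eq_zero, Finset.prod_eq_zero_iff]
          refine ⟨a, Finset.mem_univ a, ?_⟩
          unfold brInd
          rw [if_pos ha, if_neg hEa]
    _ = prodM A ν {ω | E ω} := lintegral_ind ν hE

/-- real fixed point lemma -/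
lemma fixed_point {p q g : ℝ} {N : ℕ} (hN : 2 ≤ N) (hp0 : 0 < p) (hp1 : p ≤ 1) (hq0 : 0 ≤ q)
    (hq : (1 - p + p * q) ^ N ≤ q) (hg : g ≤ (1 - p + p * g) ^ N) (hqg : q ≤ g) (hg1 : g < 1) :
    g = q := by
  by_contra hne
  have hlt : q < g := lt_of_le_of_ne hqg (Ne.symm hne)
  have hq1 : 0 < 1 - q := by linarith
  set t := (g - q) / (1 - q) with ht
  have ht0 : 0 < t := div_pos (by linarith) hq1
  have ht1 : t < 1 := by rw [ht, div_lt_one hq1]; linarith
  have hgt : g = (1 - t) * q + t := by
    rw [ht]; field_simp; ring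
  have hconv := strictConvexOn_pow hN
  have hu : 0 ≤ 1 - p + p * q := by nlinarith
  have hune : 1 - p + p * q ≠ 1 := by nlinarith
  have h1 := hconv.2 (Set.mem_Ici.2 hu) (Set.mem_Ici.2 zero_le_one) hune
    (by linarith : 0 < 1 - t) ht0 (by ring)
  simp only [smul_eq_mul, mul_one, one_pow] at h1
  have h2 : (1 - t) * (1 - p + p * q) + t = 1 - p + p * g := by
    rw [hgt]; ring
  rw [h2] at h1
  have h3 : (1 - t) * (1 - p + p * q) ^ N ≤ (1 - t) * q :=
    mul_le_mul_of_nonneg_left hq (by linarith)
  linarith

/-- Almost surely on survival, growth at any rate below the mean is exceeded. -/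
theorem ae_not_slow (hcard : 2 ≤ Fintype.card A)
    (hM : 1 < (Fintype.card A * ν {true} : ℝ≥0∞)) {b : ℝ≥0∞}
    (hb : b < Fintype.card A * ν {true}) :
    ∀ᵐ ω ∂(prodM A ν), Surv ω → ¬ Slow b ω := by
  classical
  set M : ℝ≥0∞ := Fintype.card A * ν {true} with hMdef
  have hMtop : M ≠ ∞ := ENNReal.mul_ne_top (by simp) (measure_ne_top _ _)
  have hM0 : M ≠ 0 := (lt_trans zero_lt_one hM).ne'
  have hbtop : b ≠ ∞ := (lt_trans hb hMtop.lt_top).ne
  have hS := measurableSet_surv (A := A)
  have hE := measurableSet_slow (A := A) b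
  -- survival has positive probability
  have hpos : prodM A ν {ω : List A × A → Bool | Surv ω} ≠ 0 := by
    intro h0
    have h1 : ∀ᵐ ω ∂(prodM A ν), ¬ Surv ω := by
      rw [ae_iff]; simpa using h0
    have h2 : ∫⁻ _ω, (1 : ℝ≥0∞) ∂(prodM A ν) = 0 := by
      refine lintegral_eq_zero_of_tendsto ν (G := fun _ => 1) measurable_const
        (fun _ => le_rfl) hM ?_
      filter_upwards [h1] with ω hω
      unfold Surv at hω
      push Not at hω
      obtain ⟨k₀, hk₀⟩ := hω
      refine tendsto_atTop_of_eventually_const (i₀ := k₀) (fun k hk => ?_)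
      have : TT (fun _ => (1 : ℝ≥0∞)) k ω = 0 := by
        unfold TT levelSum
        apply Finset.sum_eq_zero
        intro w _
        refine if_neg (fun hw => hk₀ ((List.ofFn w).take k₀) ?_ (hw.take k₀))
        rw [List.length_take, List.length_ofFn]
        omega
      rw [this, ENNReal.zero_div]
    simp at h2
  -- slow growth is not almost sure
  have hslow1 : prodM A ν {ω : List A × A → Bool | Slow b ω} ≠ 1 := by
    intro h1
    have h2 : ∀ᵐ ω ∂(prodM A ν), Slow b ω := by
      rw [← mem_ae_iff_prob_eq_one hE] at h1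
      exact h1
    have h3 : ∫⁻ ω, (if Surv ω then 1 else 0 : ℝ≥0∞) ∂(prodM A ν) = 0 := by
      refine lintegral_eq_zero_of_tendsto ν measurable_survInd
        (fun ω => by split_ifs <;> simp) hM ?_
      filter_upwards [h2] with ω hω
      obtain ⟨C, hC⟩ := hω
      have hlt : b / M < 1 := by
        rw [ENNReal.div_lt_iff (Or.inl hM0) (Or.inl hMtop), one_mul]
        exact hb
      have h4 : Tendsto (fun k : ℕ => (C : ℝ≥0∞) * (b / M) ^ k) atTop (𝓝 (C * 0)) :=
        ENNReal.Tendsto.const_mul (ENNReal.tendsto_pow_atTop_nhds_zero_of_lt_one hlt)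
          (Or.inr (ENNReal.natCast_ne_top C))
      rw [mul_zero] at h4
      refine tendsto_of_tendsto_of_tendsto_of_le_of_le tendsto_const_nhds h4
        (fun _ => zero_le) (fun k => ?_)
      have h5 := hC k
      unfold NN at h5
      calc TT (fun ω => if Surv ω then (1 : ℝ≥0∞) else 0) k ω / M ^ k
          ≤ (C * b ^ k) / M ^ k := by gcongr
        _ = C * (b / M) ^ k := by
            rw [div_eq_mul_inv, div_eq_mul_inv, mul_pow b M⁻¹ k, ENNReal.inv_pow]
            ring
    rw [lintegral_ind ν hS] at h3
    exact hpos h3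
  -- the inequalities
  have hg := measure_le_of_inherited ν hE (fun ω hω a ha => Slow.child hbtop hω ha)
  have hScompl : MeasurableSet {ω : List A × A → Bool | ¬ Surv ω} := hS.compl
  have hq := le_measure_of_converse ν hScompl (fun ω hω hs => by
    obtain ⟨a, ha, hsa⟩ := Surv.exists_child hs
    exact hω a ha hsa)
  have hsub : {ω : List A × A → Bool | ¬ Surv ω} ⊆ {ω | Slow b ω} :=
    fun ω hω => slow_of_not_surv hω
  -- pass to real numbers
  set g := prodM A ν {ω : List A × A → Bool | Slow b ω} with hgdef
  set q := prodM A ν {ω : List A × A → Bool | ¬ Surv ω} with hqdef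
  have hgt : g ≠ ∞ := measure_ne_top _ _
  have hqt : q ≠ ∞ := measure_ne_top _ _
  have hp1 : ν {false} + ν {true} = 1 := by
    have : ν (Set.univ : Set Bool) = 1 := measure_univ
    rw [← this, ← measure_union (by simp) (MeasurableSet.of_discrete)]
    congr 1
    ext x
    cases x <;> simp
  have hpt : ν {true} ≠ ∞ := measure_ne_top _ _
  have hft : ν {false} ≠ ∞ := measure_ne_top _ _
  have hfr : (ν {false}).toReal = 1 - (ν {true}).toReal := by
    have := congrArg ENNReal.toReal hp1
    rw [ENNReal.toReal_add hft hpt, ENNReal.toReal_one] at this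
    linarith
  have hp0 : 0 < (ν {true}).toReal := by
    apply ENNReal.toReal_pos _ hpt
    intro h0
    rw [hMdef, h0, mul_zero] at hM
    simp at hM
  have hp1' : (ν {true}).toReal ≤ 1 := by
    have : 0 ≤ (ν {false}).toReal := ENNReal.toReal_nonneg
    linarith
  have hgR : g.toReal ≤ (1 - (ν {true}).toReal + (ν {true}).toReal * g.toReal) ^
      Fintype.card A := by
    have h1 := ENNReal.toReal_mono (ENNReal.pow_ne_top (ENNReal.add_ne_top.2
      ⟨hft, ENNReal.mul_ne_top hpt hgt⟩)) hg
    rwa [ENNReal.toReal_pow, ENNReal.toReal_add hft (ENNReal.mul_ne_top hpt hgt),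
      ENNReal.toReal_mul, hfr] at h1
  have hqR : (1 - (ν {true}).toReal + (ν {true}).toReal * q.toReal) ^
      Fintype.card A ≤ q.toReal := by
    have h1 := ENNReal.toReal_mono hqt hq
    rwa [ENNReal.toReal_pow, ENNReal.toReal_add hft (ENNReal.mul_ne_top hpt hqt),
      ENNReal.toReal_mul, hfr] at h1
  have hqg : q.toReal ≤ g.toReal := ENNReal.toReal_mono hgt (measure_mono hsub)
  have hg1 : g.toReal < 1 := by
    have h1 : g < 1 := lt_of_le_of_ne prob_le_one hslow1
    have := (ENNReal.toReal_lt_toReal hgt ENNReal.one_ne_top).2 h1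
    simpa using this
  have heq := fixed_point hcard hp0 hp1' ENNReal.toReal_nonneg hqR hgR hqg hg1
  have heq' : g = q := (ENNReal.toReal_eq_toReal_iff' hgt hqt).1 heq
  -- conclusion
  rw [ae_iff]
  have hset : {ω : List A × A → Bool | ¬ (Surv ω → ¬ Slow b ω)} =
      {ω | Slow b ω} \ {ω | ¬ Surv ω} := by
    ext ω
    simp only [Set.mem_ofPred_eq, Set.mem_sdiff]
    tauto
  rw [hset, measure_sdiff hsub hScompl.nullMeasurableSet hqt, ← hgdef, ← hqdef, heq',
    tsub_self]

end

end Q169.MP
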