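import Pool.Agent.Q169.MP.LowerBox

/-!
Two generations at once: the expected weighted sums and the almost sure upper bound for the
conformal dimension.
-/

namespace Q169.MP

open Set Filter Topology MeasureTheory ProbabilityTheory
open scoped ENNReal NNReal

section Flat

variable {d n : ℕ}

/-- digits of a pair of letters in base `n * n` -/
def dig2 (c : Letter d n × Letter d n) (i : Fin d) : ℕ := n * digit c.1 i + digit c.2 i

/-- flattening words of pairs -/
def flat {A : Type} : List (A × A) → List A
  | [] => []
  | c :: v => c.1 :: c.2 :: flat v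

lemma dig2_lt (c : Letter d n × Letter d n) (i : Fin d) : dig2 c i < n * n := by
  have h1 := digit_lt c.1 i
  have h2 := digit_lt c.2 i
  unfold dig2
  nlinarith

lemma dig2_injective : Function.Injective (dig2 : Letter d n × Letter d n → Fin d → ℕ) := by
  rintro ⟨a, b⟩ ⟨a', b'⟩ h
  have key : ∀ i, digit a i = digit a' i ∧ digit b i = digit b' i := by
    intro i
    have h1 := congrFun h i
    simp only [dig2] at h1
    have h2 := digit_lt b i
    have h3 := digit_lt b' i
    have hn : 0 < n := by omega
    have e1 : (n * digit a i + digit b i) / n = digit a i := by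
      rw [Nat.mul_add_div hn, Nat.div_eq_of_lt h2, add_zero]
    have e2 : (n * digit a' i + digit b' i) / n = digit a' i := by
      rw [Nat.mul_add_div hn, Nat.div_eq_of_lt h3, add_zero]
    have e3 : digit a i = digit a' i := by rw [← e1, ← e2, h1]
    rw [e3] at h1
    exact ⟨e3, by omega⟩
  have h1 : a = a' := digit_injective (funext fun i => (key i).1)
  have h2 : b = b' := digit_injective (funext fun i => (key i).2)
  rw [h1, h2]

lemma flat_append {A : Type} (u v : List (A × A)) : flat (u ++ v) = flat u ++ flat v := by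
  induction u with
  | nil => rfl
  | cons c u ih => simp [flat, ih]

lemma flat_length {A : Type} (v : List (A × A)) : (flat v).length = 2 * v.length := by
  induction v with
  | nil => rfl
  | cons c v ih => simp only [flat, List.length_cons, ih]; ring

lemma exists_flat {A : Type} (k : ℕ) (w : List A) (h : w.length = 2 * k) :
    ∃ v : List (A × A), v.length = k ∧ flat v = w := by
  induction k generalizing w with
  | zero =>
    have : w = [] := List.length_eq_zero_iff.1 (by simpa using h)
    exact ⟨[], rfl, this.symm⟩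
  | succ k ih =>
    match w with
    | [] => simp at h
    | [a] => simp at h; omega
    | a :: b :: w' =>
      simp only [List.length_cons] at h
      obtain ⟨v, hv1, hv2⟩ := ih w' (by omega)
      exact ⟨(a, b) :: v, by simp [hv1], by simp [flat, hv2]⟩

lemma corner_flat (hn : 0 < n) (v : List (Letter d n × Letter d n)) (i : Fin d) :
    corner n digit (flat v) i = corner (n * n) dig2 v i := by
  have hn0 : (0 : ℝ) < n := by exact_mod_cast hn
  induction v with
  | nil => rfl
  | cons c v ih =>
    simp only [flat, corner, ih, dig2]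
    push_cast
    field_simp
    ring

lemma cube_flat (hn : 0 < n) (v : List (Letter d n × Letter d n)) :
    cube n digit (flat v) = cube (n * n) dig2 v := by
  ext x
  simp only [cube, Set.mem_ofPred_eq]
  have : (n : ℝ)⁻¹ ^ (flat v).length = ((n * n : ℕ) : ℝ)⁻¹ ^ v.length := by
    rw [flat_length, pow_mul]
    congr 1
    push_cast
    rw [mul_inv, sq]
  simp_rw [corner_flat hn, this]

/-- the kept words of pairs -/
def K2 (ω : List (Letter d n) × Letter d n → Bool) : Set (List (Letter d n × Letter d n)) :=
  {v | Kept ω (flat v)}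

lemma K2_prefix (ω : List (Letter d n) × Letter d n → Bool)
    (u v : List (Letter d n × Letter d n)) (h : u <+: v) (hv : v ∈ K2 ω) : u ∈ K2 ω := by
  obtain ⟨w, rfl⟩ := h
  unfold K2 at hv ⊢
  simp only [Set.mem_ofPred_eq, flat_append, kept_append] at hv ⊢
  exact hv.1

lemma perc_subset_limit (hn : 0 < n) (ω : List (Letter d n) × Letter d n → Bool) :
    ∀ x ∈ perc d n ω, x.ofLp ∈ limit (n * n) dig2 (K2 ω) := by
  intro x hx k
  rw [mem_perc_iff] at hx
  obtain ⟨w, hw1, hw2, hw3⟩ := hx (2 * k)
  obtain ⟨v, hv1, hv2⟩ := exists_flat k w hw2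
  refine ⟨v, ?_, hv1, ?_⟩
  · show Kept ω (flat v)
    rw [hv2]; exact hw1
  · rw [← cube_flat hn, hv2]; exact hw3

/-- a pair of letters is kept -/
def KeepP {A : Type} (c : A × A) (ω : List A × A → Bool) : Prop :=
  ω ([], c.1) = true ∧ ω ([c.1], c.2) = true

lemma kept_flat_cons {A : Type} (ω : List A × A → Bool) (c : A × A) (v : List (A × A)) :
    Kept ω (flat (c :: v)) ↔ KeepP c ω ∧ Kept (shiftW [c.1, c.2] ω) (flat v) := by
  rw [flat, kept_cons, kept_cons, shiftW_cons c.1 [c.2] ω]
  unfold KeepP
  rw [and_assoc]
  rfl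

lemma rank_cons {B : Type} {m : ℕ} {dig : B → Fin d → ℕ} (K : Set (List B)) (b : B)
    (v : List B) [Decidable (Isolated m dig K [])] :
    rank m dig K (b :: v) = (if Isolated m dig K [] then 1 else 0) +
      rank m dig {v | b :: v ∈ K} v := by
  classical
  unfold rank
  rw [List.length_cons, Finset.card_filter, Finset.sum_range_succ', Finset.card_filter, add_comm]
  congr 1
  simp only [List.take_zero]
  congr 1

end Flat

section Sums

variable {d n : ℕ}

/-- the root is isolated -/
def IsoRoot (ω : List (Letter d n) × Letter d n → Bool) : Prop :=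
  Isolated (n * n) dig2 (K2 ω) []

lemma isoRoot_iff (ω : List (Letter d n) × Letter d n → Bool) :
    IsoRoot ω ↔ ∀ c, KeepP c ω → InteriorLetter (n * n) dig2 c := by
  unfold IsoRoot Isolated
  constructor
  · rintro ⟨_, h⟩ c hc
    refine h c ?_
    show Kept ω (flat [c])
    rw [kept_flat_cons]
    exact ⟨hc, kept_nil _⟩
  · intro h
    refine ⟨kept_nil _, fun c hc => h c ?_⟩
    exact ((kept_flat_cons ω c []).1 hc).1

open Classical in
/-- The weighted level sums. -/
noncomputable def SS (x : ℝ≥0∞) (k : ℕ) (ω : List (Letter d n) × Letter d n → Bool) : ℝ≥0∞ :=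
  levelSum k (fun v => if v ∈ K2 ω then x ^ (v.length + rank (n * n) dig2 (K2 ω) v) else 0)

open Classical in
/-- The one-step weights. -/
noncomputable def XX (x : ℝ≥0∞) (c : Letter d n × Letter d n)
    (ω : List (Letter d n) × Letter d n → Bool) : ℝ≥0∞ :=
  if KeepP c ω then (if IsoRoot ω then x ^ 2 else x) else 0

lemma SS_zero (x : ℝ≥0∞) (ω : List (Letter d n) × Letter d n → Bool) : SS x 0 ω = 1 := by
  classical
  unfold SS
  rw [levelSum_zero, if_pos]
  · simp [rank]
  · exact kept_nil _

lemma SS_succ (x : ℝ≥0∞) (k : ℕ) (ω : List (Letter d n) × Letter d n → Bool) :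
    SS x (k + 1) ω = ∑ c, XX x c ω * SS x k (shiftW [c.1, c.2] ω) := by
  classical
  unfold SS
  rw [levelSum_succ]
  refine Finset.sum_congr rfl fun c _ => ?_
  unfold XX
  by_cases hc : KeepP c ω
  · have hset : {v | c :: v ∈ K2 ω} = K2 (shiftW [c.1, c.2] ω) := by
      ext v
      show Kept ω (flat (c :: v)) ↔ Kept (shiftW [c.1, c.2] ω) (flat v)
      rw [kept_flat_cons]
      tauto
    unfold levelSum
    rw [Finset.mul_sum]
    refine Finset.sum_congr rfl fun v _ => ?_
    beta_reduce
    have hmem : c :: List.ofFn v ∈ K2 ω ↔ List.ofFn v ∈ K2 (shiftW [c.1, c.2] ω) := by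
      rw [← hset]; rfl
    by_cases hv : List.ofFn v ∈ K2 (shiftW [c.1, c.2] ω)
    · rw [if_pos (hmem.2 hv), if_pos hv, if_pos hc, rank_cons, hset, List.length_cons]
      by_cases hiso : IsoRoot ω
      · have hiso' : Isolated (n * n) dig2 (K2 ω) [] := hiso
        rw [if_pos hiso', if_pos hiso]
        ring
      · have hiso' : ¬ Isolated (n * n) dig2 (K2 ω) [] := hiso
        rw [if_neg hiso', if_neg hiso]
        ring
    · rw [if_neg (fun h => hv (hmem.1 h)), if_neg hv, mul_zero]
  · rw [if_neg hc, zero_mul]
    unfold levelSum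
    apply Finset.sum_eq_zero
    intro v _
    refine if_neg (fun h => hc ?_)
    exact ((kept_flat_cons ω c _).1 h).1

/-- coordinates at words of length at most one -/
def low (A : Type) : Set (List A × A) := {x | x.1.length ≤ 1}

lemma disjoint_low {A : Type} (c : A × A) : Disjoint (low A) (below [c.1, c.2]) := by
  rw [Set.disjoint_left]
  rintro ⟨u, e⟩ h1 h2
  have h3 := List.IsPrefix.length_le h2
  simp only [low, Set.mem_ofPred_eq] at h1
  simp at h3
  omega

lemma measurableSet_coord {A : Type} {S : Set (List A × A)} {i : List A × A} (hi : i ∈ S) :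
    MeasurableSet[mS S] {ω : List A × A → Bool | ω i = true} := by
  have := measurable_coord hi (MeasurableSet.of_discrete (s := ({true} : Set Bool)))
  simpa [Set.preimage] using this

lemma measurableSet_keepP {A : Type} (c : A × A) :
    MeasurableSet[mS (low A)] {ω : List A × A → Bool | KeepP c ω} := by
  have h1 : MeasurableSet[mS (low A)] {ω : List A × A → Bool | ω ([], c.1) = true} :=
    measurableSet_coord (by simp [low])
  have h2 : MeasurableSet[mS (low A)] {ω : List A × A → Bool | ω ([c.1], c.2) = true} :=
    measurableSet_coord (by simp [low])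
  exact @MeasurableSet.inter _ (mS (low A)) _ _ h1 h2

lemma measurableSet_isoRoot : MeasurableSet[mS (low (Letter d n))]
    {ω : List (Letter d n) × Letter d n → Bool | IsoRoot ω} := by
  have : {ω : List (Letter d n) × Letter d n → Bool | IsoRoot ω} =
      ⋂ c, {ω | KeepP c ω → InteriorLetter (n * n) dig2 c} := by
    ext ω
    simp [isoRoot_iff]
  rw [this]
  refine @MeasurableSet.iInter _ _ (mS (low (Letter d n))) _ _ fun c => ?_
  by_cases hc : InteriorLetter (n * n) dig2 c
  · have : {ω : List (Letter d n) × Letter d n → Bool |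
        KeepP c ω → InteriorLetter (n * n) dig2 c} = Set.univ := by
      ext ω; simp [hc]
    rw [this]
    exact @MeasurableSet.univ _ (mS (low (Letter d n)))
  · have : {ω : List (Letter d n) × Letter d n → Bool |
        KeepP c ω → InteriorLetter (n * n) dig2 c} = {ω | KeepP c ω}ᶜ := by
      ext ω; simp [hc]
    rw [this]
    exact @MeasurableSet.compl _ _ (mS (low (Letter d n))) (measurableSet_keepP c)

lemma measurable_XX (x : ℝ≥0∞) (c : Letter d n × Letter d n) :
    Measurable[mS (low (Letter d n))] (XX x c) := by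
  classical
  unfold XX
  refine @Measurable.ite _ _ _ _ (mS (low (Letter d n))) _ _ _ (measurableSet_keepP c) ?_
    measurable_const
  exact @Measurable.ite _ _ _ _ (mS (low (Letter d n))) _ _ _ measurableSet_isoRoot
    measurable_const measurable_const

lemma measurable_XX' (x : ℝ≥0∞) (c : Letter d n × Letter d n) :
    Measurable (XX x c) := (measurable_XX x c).mono (mS_le _) le_rfl

lemma measurable_SS (x : ℝ≥0∞) (k : ℕ) :
    Measurable (SS x k : (List (Letter d n) × Letter d n → Bool) → ℝ≥0∞) := by
  induction k with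
  | zero =>
    have : (SS x 0 : (List (Letter d n) × Letter d n → Bool) → ℝ≥0∞) = fun _ => 1 := by
      ext ω; exact SS_zero x ω
    rw [this]; exact measurable_const
  | succ k ih =>
    have : (SS x (k + 1) : (List (Letter d n) × Letter d n → Bool) → ℝ≥0∞) =
        fun ω => ∑ c, XX x c ω * SS x k (shiftW [c.1, c.2] ω) := by
      ext ω; exact SS_succ x k ω
    rw [this]
    refine Finset.measurable_fun_sum _ fun c _ => ?_
    exact (measurable_XX' x c).mul (ih.comp (measurable_shiftW' [c.1, c.2]))

variable (ν : Measure Bool) [IsProbabilityMeasure ν]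

lemma lintegral_SS (x : ℝ≥0∞) (k : ℕ) :
    ∫⁻ ω, SS x k ω ∂(prodM (Letter d n) ν) =
      (∑ c : Letter d n × Letter d n, ∫⁻ ω, XX x c ω ∂(prodM (Letter d n) ν)) ^ k := by
  induction k with
  | zero => simp [SS_zero]
  | succ k ih =>
    simp_rw [SS_succ]
    have hm : ∀ c : Letter d n × Letter d n,
        Measurable (fun ω : List (Letter d n) × Letter d n → Bool =>
          XX x c ω * SS x k (shiftW [c.1, c.2] ω)) := fun c => (measurable_XX' x c).mul
      ((measurable_SS x k).comp (measurable_shiftW' [c.1, c.2]))
    rw [lintegral_finsetSum _ (fun c _ => hm c)]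
    have h1 : ∀ c : Letter d n × Letter d n,
        ∫⁻ ω, XX x c ω * SS x k (shiftW [c.1, c.2] ω) ∂(prodM (Letter d n) ν) =
        (∫⁻ ω, XX x c ω ∂(prodM (Letter d n) ν)) *
          (∑ c : Letter d n × Letter d n, ∫⁻ ω, XX x c ω ∂(prodM (Letter d n) ν)) ^ k := by
      intro c
      rw [lintegral_mul_indep ν (disjoint_low c) (measurable_XX x c)
        (measurable_comp_shift [c.1, c.2] subset_rfl (measurable_SS x k)),
        lintegral_shiftW ν _ (measurable_SS x k), ih]
    simp_rw [h1]
    rw [← Finset.sum_mul, pow_succ]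
    ring

/-- If the mean weight is less than one, the total weight is almost surely finite. -/
lemma ae_tsum_lt_top (x : ℝ≥0∞)
    (hx : ∑ c : Letter d n × Letter d n, ∫⁻ ω, XX x c ω ∂(prodM (Letter d n) ν) < 1) :
    ∀ᵐ ω ∂(prodM (Letter d n) ν), ∑' k, SS x k ω < ∞ := by
  have h1 : ∫⁻ ω, ∑' k, SS x k ω ∂(prodM (Letter d n) ν) ≠ ∞ := by
    rw [lintegral_tsum (fun k => (measurable_SS x k).aemeasurable)]
    simp_rw [lintegral_SS ν x]
    rw [ENNReal.tsum_geometric]
    rw [Ne, ENNReal.inv_eq_top, tsub_eq_zero_iff_le, not_le]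
    exact hx
  exact ae_lt_top (Measurable.tsum fun k => measurable_SS x k) h1

/-- the probability of keeping a pair -/
lemma lintegral_keepP (c : Letter d n × Letter d n) :
    prodM (Letter d n) ν {ω | KeepP c ω} = ν {true} ^ 2 := by
  classical
  have h := Measure.infinitePi_pi (μ := fun _ : List (Letter d n) × Letter d n => ν)
    (s := {([], c.1), ([c.1], c.2)}) (t := fun _ => {true})
    (fun _ _ => MeasurableSet.of_discrete)
  have hset : {ω : List (Letter d n) × Letter d n → Bool | KeepP c ω} =
      Set.pi (({([], c.1), ([c.1], c.2)} : Finset (List (Letter d n) × Letter d n)) :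
        Set (List (Letter d n) × Letter d n)) (fun _ => {true}) := by
    ext ω
    simp [KeepP, Set.pi]
  rw [hset]
  unfold prodM
  rw [h, Finset.prod_const, Finset.card_pair (by simp)]

end Sums

end Q169.MP
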